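import Mathlib

set_option autoImplicit false
open Set Filter Topology

namespace Pool.Agent.H744R3.QCL

/-- The scales. -/
noncomputable def dl : ℕ → ℝ
  | 0 => 1
  | n + 1 => dl n / 2 ^ (n + 30)

theorem dl_succ (n : ℕ) : dl (n + 1) = dl n / 2 ^ (n + 30) := rfl

theorem dl_pos (n : ℕ) : 0 < dl n := by
  induction n with
  | zero => simp [dl]
  | succ n ih => rw [dl_succ]; positivity

theorem dl_mul (n : ℕ) : dl (n + 1) * 2 ^ (n + 30) = dl n := by
  rw [dl_succ]; field_simp

theorem dl_succ_le (n : ℕ) : dl (n + 1) * 2 ^ 30 ≤ dl n := by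
  rw [← dl_mul n]
  have h := dl_pos (n + 1)
  have h2 : (2 : ℝ) ^ 30 ≤ 2 ^ (n + 30) := pow_le_pow_right₀ (by norm_num) (by omega)
  exact mul_le_mul_of_nonneg_left h2 h.le

theorem dl_succ_le' (n : ℕ) : dl (n + 1) * 1073741824 ≤ dl n := by
  have := dl_succ_le n
  norm_num at this
  exact this

/-- The centres of the strips. -/
def C : ℕ → Set ℝ
  | 0 => {0}
  | n + 1 => {x | x ∈ C n ∨ x - 4 * dl (n + 1) ∈ C n}

theorem C_finite (n : ℕ) : (C n).Finite := by
  induction n with
  | zero => exact Set.finite_singleton _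
  | succ n ih =>
    have : C (n + 1) = C n ∪ (fun x => x - 4 * dl (n + 1)) ⁻¹' (C n) := rfl
    rw [this]
    refine ih.union (ih.preimage ?_)
    intro a _ b _ h
    simpa using h

theorem C_sep (n : ℕ) : ∀ c ∈ C n, ∀ c' ∈ C n, c ≠ c' → 2 * dl n ≤ |c - c'| := by
  induction n with
  | zero =>
    intro c hc c' hc' h
    exact absurd ((Set.mem_singleton_iff.1 hc).trans (Set.mem_singleton_iff.1 hc').symm) h
  | succ n ih =>
    intro c hc c' hc' h
    have hd := dl_pos (n + 1)
    have hd' := dl_succ_le' n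
    rcases hc with hc | hc <;> rcases hc' with hc' | hc'
    · have := ih c hc c' hc' h
      linarith
    · by_cases e : c = c' - 4 * dl (n + 1)
      · rw [e, show c' - 4 * dl (n + 1) - c' = -(4 * dl (n + 1)) by ring, abs_neg,
          abs_of_pos (by positivity)]
        linarith
      · have h1 := ih _ hc _ hc' e
        have h2 : |c - (c' - 4 * dl (n + 1))| ≤ |c - c'| + 4 * dl (n + 1) := by
          rw [show c - (c' - 4 * dl (n + 1)) = (c - c') + 4 * dl (n + 1) by ring]
          refine (abs_add_le _ _).trans ?_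
          rw [abs_of_pos (show 0 < 4 * dl (n + 1) by positivity)]
        linarith
    · by_cases e : c - 4 * dl (n + 1) = c'
      · rw [← e, show c - (c - 4 * dl (n + 1)) = (4 * dl (n + 1)) by ring,
          abs_of_pos (by positivity)]
        linarith
      · have h1 := ih _ hc _ hc' e
        have h2 : |c - 4 * dl (n + 1) - c'| ≤ |c - c'| + 4 * dl (n + 1) := by
          rw [show c - 4 * dl (n + 1) - c' = (c - c') + -(4 * dl (n + 1)) by ring]
          refine (abs_add_le _ _).trans ?_
          rw [abs_neg, abs_of_pos (show 0 < 4 * dl (n + 1) by positivity)]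
        linarith
    · have h1 := ih _ hc _ hc' (by intro e; apply h; linarith)
      rw [show c - 4 * dl (n + 1) - (c' - 4 * dl (n + 1)) = c - c' by ring] at h1
      linarith

theorem C_parent (n : ℕ) {c : ℝ} (hc : c ∈ C (n + 1)) :
    ∃ c' ∈ C n, |c - c'| ≤ 4 * dl (n + 1) := by
  have hd := dl_pos (n + 1)
  rcases hc with hc | hc
  · exact ⟨c, hc, by simp; positivity⟩
  · refine ⟨_, hc, ?_⟩
    rw [show c - (c - 4 * dl (n + 1)) = (4 * dl (n + 1)) by ring,
          abs_of_pos (by positivity)]

/-- The profile. -/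
noncomputable def ph (s : ℝ) : ℝ := max 0 (min (1 + s) (2 - 2 * s))

theorem ph_nonneg (s : ℝ) : 0 ≤ ph s := le_max_left _ _

theorem ph_le (s : ℝ) : ph s ≤ 4 / 3 := by
  unfold ph
  refine max_le (by norm_num) ?_
  rcases le_total s (1/3) with h | h
  · exact (min_le_left _ _).trans (by linarith)
  · exact (min_le_right _ _).trans (by linarith)

theorem ph_eq {s : ℝ} (h : |s| ≤ 1 / 3) : ph s = 1 + s := by
  have := abs_le.1 h
  unfold ph
  rw [min_eq_left (by linarith [this.2]), max_eq_right (by linarith [this.1])]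

theorem ph_zero {s : ℝ} (h : 1 ≤ |s|) : ph s = 0 := by
  unfold ph
  apply max_eq_left
  rcases le_abs.1 h with h | h
  · exact (min_le_right _ _).trans (by linarith)
  · exact (min_le_left _ _).trans (by linarith)

theorem ph_lip (s t : ℝ) : |ph s - ph t| ≤ 2 * |s - t| := by
  unfold ph
  refine (abs_max_sub_max_le_max _ _ _ _).trans ?_
  rw [sub_self, abs_zero]
  refine max_le (by positivity) ?_
  refine (abs_min_sub_min_le_max _ _ _ _).trans ?_
  refine max_le ?_ ?_
  · rw [show 1 + s - (1 + t) = s - t by ring]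
    have := abs_nonneg (s - t)
    linarith
  · rw [show 2 - 2 * s - (2 - 2 * t) = (-2) * (s - t) by ring, abs_mul]
    norm_num

theorem ph_le' (s : ℝ) : ph s ≤ 2 * max 0 (1 - |s|) := by
  unfold ph
  refine max_le (by positivity) ?_
  rcases le_total 0 s with h | h
  · rw [abs_of_nonneg h]
    refine (min_le_right _ _).trans ?_
    have := le_max_right (0:ℝ) (1 - s)
    linarith
  · rw [abs_of_nonpos h]
    refine (min_le_left _ _).trans ?_
    have h1 := le_max_right (0:ℝ) (1 - -s)
    have h2 := le_max_left (0:ℝ) (1 - -s)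
    linarith

open Classical in
/-- The horizontal cut-off. -/
noncomputable def Th (n : ℕ) (x : ℝ) : ℝ :=
  if h : ∃ c ∈ C n, |x - c| < dl n then ph ((x - h.choose) / dl n) else 0

theorem Th_eq {n : ℕ} {x c : ℝ} (hc : c ∈ C n) (h : |x - c| < dl n) :
    Th n x = ph ((x - c) / dl n) := by
  have hex : ∃ c ∈ C n, |x - c| < dl n := ⟨c, hc, h⟩
  have h1 := hex.choose_spec
  have e : hex.choose = c := by
    by_contra hne
    have h2 := C_sep n _ h1.1 _ hc hne
    have h3 : |hex.choose - c| ≤ |x - hex.choose| + |x - c| := by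
      rw [show hex.choose - c = (x - c) - (x - hex.choose) by ring]
      refine (abs_sub _ _).trans ?_
      linarith
    linarith [h1.2]
  unfold Th
  rw [dif_pos hex, e]

theorem Th_zero {n : ℕ} {x : ℝ} (h : ∀ c ∈ C n, dl n ≤ |x - c|) : Th n x = 0 := by
  unfold Th
  rw [dif_neg]
  rintro ⟨c, hc, h'⟩
  exact absurd (h c hc) (not_le.2 h')

theorem Th_nonneg (n : ℕ) (x : ℝ) : 0 ≤ Th n x := by
  unfold Th
  split_ifs
  · exact ph_nonneg _
  · exact le_rfl

theorem Th_le (n : ℕ) (x : ℝ) : Th n x ≤ 4 / 3 := by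
  unfold Th
  split_ifs
  · exact ph_le _
  · norm_num

theorem Th_lip_aux {n : ℕ} {x x' c : ℝ} (hc : c ∈ C n) (h : |x - c| < dl n)
    (h' : ∀ c ∈ C n, dl n ≤ |x' - c|) : |Th n x - Th n x'| ≤ 2 / dl n * |x - x'| := by
  have hd := dl_pos n
  rw [Th_zero h', sub_zero, abs_of_nonneg (Th_nonneg _ _), Th_eq hc h]
  refine (ph_le' _).trans ?_
  have h1 := h' c hc
  have h2 : |x' - c| ≤ |x - x'| + |x - c| := by
    rw [show x' - c = (x - c) - (x - x') by ring]
    refine (abs_sub _ _).trans ?_
    linarith
  have h3 : (0:ℝ) ≤ 1 - |(x - c) / dl n| := by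
    rw [abs_div, abs_of_pos hd, sub_nonneg, div_le_one hd]; exact h.le
  rw [max_eq_right h3, abs_div, abs_of_pos hd]
  have : 2 * (1 - |x - c| / dl n) = 2 / dl n * (dl n - |x - c|) := by field_simp
  rw [this]
  apply mul_le_mul_of_nonneg_left _ (by positivity)
  linarith

theorem Th_lip (n : ℕ) (x x' : ℝ) : |Th n x - Th n x'| ≤ 2 / dl n * |x - x'| := by
  have hd := dl_pos n
  by_cases hx : ∃ c ∈ C n, |x - c| < dl n
  · obtain ⟨c, hc, h⟩ := hx
    by_cases hx' : ∃ c ∈ C n, |x' - c| < dl n
    · obtain ⟨c', hc', h'⟩ := hx'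
      by_cases e : c = c'
      · subst e
        rw [Th_eq hc h, Th_eq hc' h']
        refine (ph_lip _ _).trans ?_
        rw [show (x - c) / dl n - (x' - c) / dl n = (x - x') / dl n by ring, abs_div,
          abs_of_pos hd]
        apply le_of_eq
        ring
      · have h1 := C_sep n _ hc _ hc' e
        have h2 : |c - c'| ≤ |x - x'| + |x - c| + |x' - c'| := by
          rw [show c - c' = (x - x') - (x - c) + (x' - c') by ring]
          refine (abs_add_le _ _).trans ?_
          have := abs_sub (x - x') (x - c)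
          linarith
        rw [Th_eq hc h, Th_eq hc' h']
        have h3 : (0:ℝ) ≤ 1 - |(x - c) / dl n| := by
          rw [abs_div, abs_of_pos hd, sub_nonneg, div_le_one hd]; exact h.le
        have h4 : (0:ℝ) ≤ 1 - |(x' - c') / dl n| := by
          rw [abs_div, abs_of_pos hd, sub_nonneg, div_le_one hd]; exact h'.le
        have h5 := ph_le' ((x - c) / dl n)
        have h6 := ph_le' ((x' - c') / dl n)
        rw [max_eq_right h3, abs_div, abs_of_pos hd] at h5
        rw [max_eq_right h4, abs_div, abs_of_pos hd] at h6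
        have h7 := ph_nonneg ((x - c) / dl n)
        have h8 := ph_nonneg ((x' - c') / dl n)
        have h9 : |ph ((x - c) / dl n) - ph ((x' - c') / dl n)| ≤
            2 * (1 - |x - c| / dl n) + 2 * (1 - |x' - c'| / dl n) := by
          rw [abs_le]; constructor <;> linarith
        refine h9.trans ?_
        have : 2 * (1 - |x - c| / dl n) + 2 * (1 - |x' - c'| / dl n)
            = 2 / dl n * (2 * dl n - |x - c| - |x' - c'|) := by field_simp; ring
        rw [this]
        apply mul_le_mul_of_nonneg_left _ (by positivity)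
        linarith
    · push Not at hx'
      exact Th_lip_aux hc h hx'
  · push Not at hx
    by_cases hx' : ∃ c ∈ C n, |x' - c| < dl n
    · obtain ⟨c', hc', h'⟩ := hx'
      rw [abs_sub_comm, abs_sub_comm x]
      exact Th_lip_aux hc' h' hx
    · push Not at hx'
      rw [Th_zero hx, Th_zero hx']
      simp
      positivity

end Pool.Agent.H744R3.QCL
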