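import Pool.Agent.H744R3.QCL1

set_option autoImplicit false
open Set Filter Topology

namespace Pool.Agent.H744R3.QCL

/-- unit circle point with angle `θ`. -/
noncomputable def ex (t : ℝ) : ℂ := Complex.exp (t * Complex.I)

theorem norm_ex (t : ℝ) : ‖ex t‖ = 1 := by
  unfold ex; exact Complex.norm_exp_ofReal_mul_I t

theorem ex_add (s t : ℝ) : ex (s + t) = ex s * ex t := by
  unfold ex
  rw [← Complex.exp_add]
  congr 1
  push_cast
  ring

theorem ex_zero : ex 0 = 1 := by simp [ex]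

theorem ex_sub_le (s t : ℝ) : ‖ex s - ex t‖ ≤ |s - t| := by
  have h : ex s - ex t = ex t * (ex (s - t) - 1) := by
    rw [mul_sub, ← ex_add]
    ring_nf
  rw [h, norm_mul, norm_ex, one_mul]
  unfold ex
  have := Real.norm_exp_I_mul_ofReal_sub_one_le (x := s - t)
  rw [mul_comm] at this
  simpa using this

theorem ex_taylor (t : ℝ) : ‖ex t - 1 - t * Complex.I‖ ≤ 2 * t ^ 2 := by
  rcases le_or_gt |t| 1 with h | h
  · unfold ex
    have := Complex.norm_exp_sub_one_sub_id_le (x := t * Complex.I) (by simpa using h)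
    refine this.trans ?_
    simp
    nlinarith [sq_nonneg t]
  · have h1 : ‖ex t - 1‖ ≤ |t| := by
      have := ex_sub_le t 0
      simpa [ex] using this
    have h2 : ‖(t : ℂ) * Complex.I‖ = |t| := by simp
    have h3 : ‖ex t - 1 - t * Complex.I‖ ≤ |t| + |t| := by
      refine (norm_sub_le _ _).trans ?_
      rw [h2]; linarith
    have h4 : |t| ≤ t ^ 2 := by
      rw [← sq_abs]; nlinarith
    linarith

theorem ex_taylor2 (s t t0 : ℝ) : ‖ex s - ex t - (s - t : ℝ) * Complex.I * ex t0‖ ≤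
    |s - t| * (2 * |s - t| + |t - t0|) := by
  have h : ex s - ex t - (s - t : ℝ) * Complex.I * ex t0 =
      ex t * (ex (s - t) - 1 - (s - t : ℝ) * Complex.I) +
        (s - t : ℝ) * Complex.I * (ex t - ex t0) := by
    have : ex s = ex t * ex (s - t) := by rw [← ex_add]; ring_nf
    rw [this]
    ring
  rw [h]
  refine (norm_add_le _ _).trans ?_
  rw [norm_mul, norm_ex, one_mul, norm_mul, norm_mul, Complex.norm_I, mul_one, Complex.norm_real,
    Real.norm_eq_abs]
  have h1 := ex_taylor (s - t)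
  have h2 := ex_sub_le t t0
  have h3 : |s - t| * ‖ex t - ex t0‖ ≤ |s - t| * |t - t0| :=
    mul_le_mul_of_nonneg_left h2 (abs_nonneg _)
  have h4 : (s - t) ^ 2 = |s - t| * |s - t| := by rw [← sq_abs]; ring
  rw [h4] at h1
  linarith

/-- The displacement at stage `n`. -/
noncomputable def gg (n : ℕ) (z : ℂ) : ℂ :=
  ((1 / 16 * dl n * Th n z.re : ℝ) : ℂ) * ex (z.im / dl n)

/-- The wiggling map at stage `n`. -/
noncomputable def Ps (n : ℕ) (z : ℂ) : ℂ := z + gg n z

theorem gg_norm (n : ℕ) (z : ℂ) : ‖gg n z‖ ≤ dl n / 12 := by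
  unfold gg
  rw [norm_mul, norm_ex, mul_one, Complex.norm_real, Real.norm_eq_abs,
    abs_of_nonneg (mul_nonneg (by have := dl_pos n; positivity) (Th_nonneg n _))]
  have h1 := Th_le n z.re
  have h2 := dl_pos n
  nlinarith

theorem gg_lip (n : ℕ) (z w : ℂ) : ‖gg n z - gg n w‖ ≤ 1 / 4 * ‖z - w‖ := by
  have hd := dl_pos n
  have h : gg n z - gg n w =
      ((1 / 16 * dl n * (Th n z.re - Th n w.re) : ℝ) : ℂ) * ex (z.im / dl n) +
      ((1 / 16 * dl n * Th n w.re : ℝ) : ℂ) * (ex (z.im / dl n) - ex (w.im / dl n)) := by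
    unfold gg
    push_cast
    ring
  rw [h]
  refine (norm_add_le _ _).trans ?_
  rw [norm_mul, norm_ex, mul_one, Complex.norm_real, Real.norm_eq_abs, norm_mul,
    Complex.norm_real, Real.norm_eq_abs,
    abs_of_nonneg (mul_nonneg (by positivity) (Th_nonneg n w.re)), abs_mul,
    abs_of_pos (show 0 < 1 / 16 * dl n by positivity)]
  have h1 := Th_lip n z.re w.re
  have h2 := ex_sub_le (z.im / dl n) (w.im / dl n)
  rw [← sub_div, abs_div, abs_of_pos hd] at h2
  have h3 : |z.re - w.re| ≤ ‖z - w‖ := by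
    rw [← Complex.sub_re]; exact Complex.abs_re_le_norm _
  have h4 : |z.im - w.im| ≤ ‖z - w‖ := by
    rw [← Complex.sub_im]; exact Complex.abs_im_le_norm _
  have h5 : 1 / 16 * dl n * |Th n z.re - Th n w.re| ≤ 1 / 8 * ‖z - w‖ := by
    calc 1 / 16 * dl n * |Th n z.re - Th n w.re| ≤ 1 / 16 * dl n * (2 / dl n * |z.re - w.re|) :=
          mul_le_mul_of_nonneg_left h1 (by positivity)
      _ = 1 / 8 * |z.re - w.re| := by field_simp; ring
      _ ≤ 1 / 8 * ‖z - w‖ := by linarith
  have h6 : 1 / 16 * dl n * Th n w.re * ‖ex (z.im / dl n) - ex (w.im / dl n)‖ ≤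
      1 / 12 * ‖z - w‖ := by
    have h7 : 1 / 16 * dl n * Th n w.re ≤ 1 / 12 * dl n := by
      have := Th_le n w.re
      nlinarith
    calc 1 / 16 * dl n * Th n w.re * ‖ex (z.im / dl n) - ex (w.im / dl n)‖
        ≤ 1 / 12 * dl n * (|z.im - w.im| / dl n) :=
          mul_le_mul h7 h2 (norm_nonneg _) (by positivity)
      _ = 1 / 12 * |z.im - w.im| := by field_simp
      _ ≤ 1 / 12 * ‖z - w‖ := by linarith
  have := norm_nonneg (z - w)
  linarith

theorem Ps_dist (n : ℕ) (z : ℂ) : ‖Ps n z - z‖ ≤ dl n / 12 := by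
  unfold Ps
  rw [add_sub_cancel_left]
  exact gg_norm n z

theorem Ps_upper (n : ℕ) (z w : ℂ) : ‖Ps n z - Ps n w‖ ≤ 5 / 4 * ‖z - w‖ := by
  have h : Ps n z - Ps n w = (z - w) + (gg n z - gg n w) := by unfold Ps; ring
  rw [h]
  refine (norm_add_le _ _).trans ?_
  have := gg_lip n z w
  linarith

theorem Ps_lower (n : ℕ) (z w : ℂ) : 3 / 4 * ‖z - w‖ ≤ ‖Ps n z - Ps n w‖ := by
  have h : Ps n z - Ps n w = (z - w) - (gg n w - gg n z) := by unfold Ps; ring
  rw [h]
  have h1 := norm_sub_norm_le (z - w) (gg n w - gg n z)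
  have := gg_lip n w z
  rw [norm_sub_rev w z] at this
  linarith

theorem Ps_surj (n : ℕ) : Function.Surjective (Ps n) := by
  have h : ApproximatesLinearOn (Ps n)
      ((ContinuousLinearEquiv.refl ℝ ℂ : ℂ ≃L[ℝ] ℂ) : ℂ →L[ℝ] ℂ) univ (1 / 4) := by
    intro z _ w _
    have e : Ps n z - Ps n w - ((ContinuousLinearEquiv.refl ℝ ℂ : ℂ ≃L[ℝ] ℂ) : ℂ →L[ℝ] ℂ) (z - w)
        = gg n z - gg n w := by
      unfold Ps
      simp
      ring
    rw [e]
    have := gg_lip n z w
    simpa using this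
  refine h.surjective (Or.inr ?_)
  simp only [ContinuousLinearEquiv.refl_symm]
  have h1 : ‖((ContinuousLinearEquiv.refl ℝ ℂ : ℂ ≃L[ℝ] ℂ) : ℂ →L[ℝ] ℂ)‖₊ = 1 := by
    rw [ContinuousLinearEquiv.coe_refl]
    exact ContinuousLinearMap.nnnorm_id
  rw [h1, inv_one]
  rw [← NNReal.coe_lt_coe]
  norm_num

theorem Ps_continuous (n : ℕ) : Continuous (Ps n) := by
  have : LipschitzWith (5 / 4) (Ps n) := by
    refine LipschitzWith.of_dist_le_mul fun z w => ?_
    rw [dist_eq_norm, dist_eq_norm]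
    have := Ps_upper n z w
    simpa using this
  exact this.continuous

theorem Ps_eq_self {n : ℕ} {z : ℂ} (h : ∀ c ∈ C n, dl n ≤ |z.re - c|) : Ps n z = z := by
  unfold Ps gg
  rw [Th_zero h]
  simp

/-- near the lines of stage `n` the map is almost a similarity at small scales. -/
theorem Ps_near {n : ℕ} {z0 : ℂ} {c r ρ : ℝ} (hc : c ∈ C n) (h0 : |z0.re - c| ≤ ρ)
    (hr : ρ + r ≤ dl n / 3) :
    ∃ b : ℂ, 15 / 16 ≤ ‖b‖ ∧ ∀ u v : ℂ, ‖u - z0‖ ≤ r → ‖v - z0‖ ≤ r →
      ‖Ps n u - Ps n v - b * (u - v)‖ ≤ (7 * r + ρ) / (16 * dl n) * ‖u - v‖ := by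
  have hd := dl_pos n
  refine ⟨1 + (1 / 16 : ℝ) * ex (z0.im / dl n), ?_, ?_⟩
  · have h1 : ‖((1 / 16 : ℝ) : ℂ) * ex (z0.im / dl n)‖ = 1 / 16 := by
      rw [norm_mul, norm_ex, mul_one, Complex.norm_real, Real.norm_eq_abs, abs_of_pos (by norm_num)]
    have h2 := norm_sub_norm_le (1 : ℂ) (-(((1 / 16 : ℝ) : ℂ) * ex (z0.im / dl n)))
    rw [norm_neg, h1, norm_one, sub_neg_eq_add] at h2
    linarith
  · intro u v hu hv
    have key : ∀ w : ℂ, ‖w - z0‖ ≤ r → Th n w.re = 1 + (w.re - c) / dl n ∧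
        |(w.re - c) / dl n| ≤ (ρ + r) / dl n := by
      intro w hw
      have h1 : |w.re - z0.re| ≤ r := by
        rw [← Complex.sub_re]; exact (Complex.abs_re_le_norm _).trans hw
      have h2 : |w.re - c| ≤ ρ + r := by
        rw [show w.re - c = (w.re - z0.re) + (z0.re - c) by ring]
        refine (abs_add_le _ _).trans ?_
        linarith
      constructor
      · rw [Th_eq hc (by linarith), ph_eq]
        rw [abs_div, abs_of_pos hd, div_le_iff₀ hd]
        linarith
      · rw [abs_div, abs_of_pos hd]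
        exact div_le_div_of_nonneg_right h2 hd.le
    obtain ⟨hu1, hu2⟩ := key u hu
    obtain ⟨hv1, hv2⟩ := key v hv
    have hΔs : |(u.re - c) / dl n - (v.re - c) / dl n| ≤ ‖u - v‖ / dl n := by
      rw [← sub_div, abs_div, abs_of_pos hd]
      apply div_le_div_of_nonneg_right _ hd.le
      rw [show u.re - c - (v.re - c) = (u - v).re by simp]
      exact Complex.abs_re_le_norm _
    have hΔt : |u.im / dl n - v.im / dl n| ≤ ‖u - v‖ / dl n := by
      rw [← sub_div, abs_div, abs_of_pos hd]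
      apply div_le_div_of_nonneg_right _ hd.le
      rw [← Complex.sub_im]
      exact Complex.abs_im_le_norm _
    have hu0 : |u.im / dl n - z0.im / dl n| ≤ r / dl n := by
      rw [← sub_div, abs_div, abs_of_pos hd]
      apply div_le_div_of_nonneg_right _ hd.le
      rw [← Complex.sub_im]
      exact (Complex.abs_im_le_norm _).trans hu
    have hv0 : |v.im / dl n - z0.im / dl n| ≤ r / dl n := by
      rw [← sub_div, abs_div, abs_of_pos hd]
      apply div_le_div_of_nonneg_right _ hd.le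
      rw [← Complex.sub_im]
      exact (Complex.abs_im_le_norm _).trans hv
    have huv : ‖u - v‖ / dl n ≤ 2 * r / dl n := by
      apply div_le_div_of_nonneg_right _ hd.le
      rw [show u - v = (u - z0) - (v - z0) by ring]
      refine (norm_sub_le _ _).trans ?_
      linarith
    set su := (u.re - c) / dl n with hsu
    set sv := (v.re - c) / dl n with hsv
    set tu := u.im / dl n with htu
    set tv := v.im / dl n with htv
    set t0 := z0.im / dl n with ht0
    have euv : u - v = (dl n : ℂ) * (((su - sv : ℝ) : ℂ) + ((tu - tv : ℝ) : ℂ) * Complex.I) := by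
      apply Complex.ext
      · simp [hsu, hsv]
        field_simp
        ring
      · simp [htu, htv]
        field_simp
    have hgu : gg n u = ((1 / 16 * dl n * (1 + su) : ℝ) : ℂ) * ex tu := by
      unfold gg; rw [hu1]
    have hgv : gg n v = ((1 / 16 * dl n * (1 + sv) : ℝ) : ℂ) * ex tv := by
      unfold gg; rw [hv1]
    have e : Ps n u - Ps n v - (1 + (1 / 16 : ℝ) * ex t0) * (u - v) =
        ((1 / 16 * dl n : ℝ) : ℂ) * ((((su - sv : ℝ) : ℂ) * (ex tu - ex t0)) +
          (ex tu - ex tv - (tu - tv : ℝ) * Complex.I * ex t0) + (sv : ℂ) * (ex tu - ex tv)) := by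
      have h1 : Ps n u - Ps n v - (1 + (1 / 16 : ℝ) * ex t0) * (u - v) =
          gg n u - gg n v - (1 / 16 : ℝ) * ex t0 * (u - v) := by unfold Ps; ring
      rw [h1, hgu, hgv, euv]
      push_cast
      ring
    rw [e, norm_mul, Complex.norm_real, Real.norm_eq_abs,
      abs_of_pos (show 0 < 1 / 16 * dl n by positivity)]
    have hρ : 0 ≤ ρ := (abs_nonneg _).trans h0
    have hr0 : 0 ≤ r := (norm_nonneg _).trans hu
    have hN := norm_nonneg (u - v)
    set N := ‖u - v‖ / dl n with hNd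
    have hN0 : 0 ≤ N := by positivity
    have b1 : ‖(((su - sv : ℝ) : ℂ) * (ex tu - ex t0))‖ ≤ N * (r / dl n) := by
      rw [norm_mul, Complex.norm_real, Real.norm_eq_abs]
      exact mul_le_mul hΔs ((ex_sub_le _ _).trans hu0) (norm_nonneg _) hN0
    have b2 : ‖ex tu - ex tv - (tu - tv : ℝ) * Complex.I * ex t0‖ ≤ N * (5 * (r / dl n)) := by
      refine (ex_taylor2 tu tv t0).trans ?_
      refine mul_le_mul hΔt ?_ (by positivity) hN0
      have : 2 * |tu - tv| ≤ 4 * (r / dl n) := by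
        have h1 : 2 * r / dl n = 2 * (r / dl n) := by ring
        linarith
      linarith
    have b3 : ‖(sv : ℂ) * (ex tu - ex tv)‖ ≤ (ρ + r) / dl n * N := by
      rw [norm_mul, Complex.norm_real, Real.norm_eq_abs]
      exact mul_le_mul hv2 ((ex_sub_le _ _).trans hΔt) (norm_nonneg _) (by positivity)
    have b4 : ‖(((su - sv : ℝ) : ℂ) * (ex tu - ex t0)) +
          (ex tu - ex tv - (tu - tv : ℝ) * Complex.I * ex t0) + (sv : ℂ) * (ex tu - ex tv)‖ ≤
        N * ((7 * r + ρ) / dl n) := by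
      refine (norm_add_le _ _).trans ?_
      refine (add_le_add (norm_add_le _ _) le_rfl).trans ?_
      have : N * ((7 * r + ρ) / dl n) = N * (r / dl n) + N * (5 * (r / dl n)) +
          (ρ + r) / dl n * N := by ring
      linarith
    calc 1 / 16 * dl n * _ ≤ 1 / 16 * dl n * (N * ((7 * r + ρ) / dl n)) :=
          mul_le_mul_of_nonneg_left b4 (by positivity)
      _ = (7 * r + ρ) / (16 * dl n) * ‖u - v‖ := by
          rw [hNd]; field_simp

end Pool.Agent.H744R3.QCL
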