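import Pool.Agent.H744R3.QCL2

set_option autoImplicit false
open Set Filter Topology

namespace Pool.Agent.H744R3.QCL

theorem dl_geom (k N : ℕ) : dl (k + N) * 4 ^ N ≤ dl k := by
  induction N with
  | zero => simp
  | succ N ih =>
    have h1 := dl_succ_le' (k + N)
    have h2 := dl_pos (k + N + 1)
    have h3 : dl (k + (N + 1)) * 4 ^ (N + 1) = dl (k + N + 1) * 4 * 4 ^ N := by
      rw [← add_assoc, pow_succ]; ring
    rw [h3]
    refine le_trans ?_ ih
    apply mul_le_mul_of_nonneg_right _ (by positivity)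
    linarith

theorem dl_tendsto : Tendsto dl atTop (𝓝 0) := by
  have h : Tendsto (fun n : ℕ => ((1:ℝ) / 4) ^ n) atTop (𝓝 0) :=
    tendsto_pow_atTop_nhds_zero_of_lt_one (by norm_num) (by norm_num)
  refine squeeze_zero (fun n => (dl_pos n).le) (fun n => ?_) h
  have := dl_geom 0 n
  rw [zero_add] at this
  simp only [dl] at this
  rw [one_div, inv_pow]
  rw [← one_div, le_div_iff₀ (by positivity)]
  exact this

/-- compositions -/
noncomputable def P : ℕ → ℂ → ℂ
  | 0 => id
  | n + 1 => P n ∘ Ps (n + 1)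

noncomputable def F : ℕ → ℕ → ℂ → ℂ
  | _, 0 => id
  | n, N + 1 => Ps (n + 1) ∘ F (n + 1) N

theorem F_right (N : ℕ) : ∀ n, F n (N + 1) = F n N ∘ Ps (n + N + 1) := by
  induction N with
  | zero => intro n; simp [F]
  | succ N ih =>
    intro n
    have h1 : F n (N + 1 + 1) = Ps (n + 1) ∘ F (n + 1) (N + 1) := rfl
    rw [h1, ih (n + 1)]
    have h2 : F n (N + 1) = Ps (n + 1) ∘ F (n + 1) N := rfl
    rw [h2, Function.comp_assoc]
    congr 3
    omega

theorem P_add (N : ℕ) : ∀ n, P (n + N) = P n ∘ F n N := by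
  induction N with
  | zero => intro n; simp [F]
  | succ N ih =>
    intro n
    rw [show n + (N + 1) = (n + 1) + N by ring, ih (n + 1)]
    rfl

theorem P_eq_F (N : ℕ) : P N = F 0 N := by
  have := P_add N 0
  rw [zero_add] at this
  rw [this]
  rfl

theorem F_lip (N : ℕ) : ∀ n z w, ‖F n N z - F n N w‖ ≤ 2 ^ N * ‖z - w‖ := by
  induction N with
  | zero => intro n z w; simp [F]
  | succ N ih =>
    intro n z w
    have h1 := Ps_upper (n + 1) (F (n + 1) N z) (F (n + 1) N w)
    have h2 := ih (n + 1) z w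
    have h3 : ‖F n (N + 1) z - F n (N + 1) w‖ ≤ 5 / 4 * ‖F (n + 1) N z - F (n + 1) N w‖ := h1
    have h4 : (2:ℝ) ^ (N + 1) * ‖z - w‖ = 2 * (2 ^ N * ‖z - w‖) := by rw [pow_succ]; ring
    rw [h4]
    have h5 : 0 ≤ 2 ^ N * ‖z - w‖ := by positivity
    linarith

theorem P_lip (n : ℕ) (z w : ℂ) : ‖P n z - P n w‖ ≤ 2 ^ n * ‖z - w‖ := by
  rw [P_eq_F]; exact F_lip n 0 z w

theorem P_inj (n : ℕ) : Function.Injective (P n) := by
  induction n with
  | zero => exact Function.injective_id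
  | succ n ih =>
    refine ih.comp ?_
    intro z w h
    have := Ps_lower (n + 1) z w
    rw [h, sub_self, norm_zero] at this
    have h2 : ‖z - w‖ = 0 := le_antisymm (by linarith) (norm_nonneg _)
    exact sub_eq_zero.1 (norm_eq_zero.1 h2)

theorem P_cont (n : ℕ) : Continuous (P n) := by
  induction n with
  | zero => exact continuous_id
  | succ n ih => exact ih.comp (Ps_continuous _)

theorem F_dist (N : ℕ) : ∀ n z, ‖F n N z - z‖ ≤ dl (n + 1) / 8 := by
  induction N with
  | zero => intro n z; have := dl_pos (n + 1); simp [F]; positivity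
  | succ N ih =>
    intro n z
    have h1 := ih (n + 1) z
    have h2 := Ps_dist (n + 1) (F (n + 1) N z)
    have h3 := dl_succ_le' (n + 1)
    have h4 := dl_pos (n + 1)
    have h5 : F n (N + 1) z - z = (Ps (n + 1) (F (n + 1) N z) - F (n + 1) N z) +
      (F (n + 1) N z - z) := by
      have : F n (N + 1) z = Ps (n + 1) (F (n + 1) N z) := rfl
      rw [this]; ring
    rw [h5]
    refine (norm_add_le _ _).trans ?_
    linarith

theorem F_step (n N : ℕ) (z : ℂ) : dist (F n N z) (F n (N + 1) z) ≤ dl (n + 1) / 12 * (1 / 2) ^ N := by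
  rw [F_right, dist_comm, dist_eq_norm]
  refine (F_lip N n _ _).trans ?_
  have h1 := Ps_dist (n + N + 1) z
  have h2 := dl_geom (n + 1) N
  have h3 : dl (n + N + 1) * 4 ^ N ≤ dl (n + 1) := by
    rw [show n + N + 1 = n + 1 + N by ring]; exact h2
  have h4 : (2:ℝ) ^ N * ‖Ps (n + N + 1) z - z‖ ≤ 2 ^ N * (dl (n + N + 1) / 12) :=
    mul_le_mul_of_nonneg_left h1 (by positivity)
  refine h4.trans ?_
  rw [one_div, inv_pow, ← div_eq_mul_inv, le_div_iff₀ (by positivity)]
  have h5 : (2:ℝ) ^ N * (dl (n + N + 1) / 12) * 2 ^ N = dl (n + N + 1) * 4 ^ N / 12 := by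
    have : (4:ℝ) ^ N = 2 ^ N * 2 ^ N := by rw [← mul_pow]; norm_num
    rw [this]; ring
  rw [h5]
  linarith

theorem F_cauchy (n : ℕ) (z : ℂ) : ∃ l, Tendsto (fun N => F n N z) atTop (𝓝 l) := by
  apply cauchySeq_tendsto_of_complete
  exact cauchySeq_of_le_geometric (1 / 2) (dl (n + 1) / 12) (by norm_num) (F_step n · z)

/-- the tail maps -/
noncomputable def T (n : ℕ) (z : ℂ) : ℂ := (F_cauchy n z).choose

theorem T_spec (n : ℕ) (z : ℂ) : Tendsto (fun N => F n N z) atTop (𝓝 (T n z)) :=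
  (F_cauchy n z).choose_spec

theorem T_dist (n : ℕ) (z : ℂ) : ‖T n z - z‖ ≤ dl (n + 1) / 8 := by
  have h : Tendsto (fun N => ‖F n N z - z‖) atTop (𝓝 ‖T n z - z‖) :=
    ((T_spec n z).sub_const z).norm
  exact le_of_tendsto' h (fun N => F_dist N n z)

theorem T_rec (n : ℕ) (z : ℂ) : T n z = Ps (n + 1) (T (n + 1) z) := by
  have h1 : Tendsto (fun N => F n (N + 1) z) atTop (𝓝 (T n z)) :=
    (T_spec n z).comp (tendsto_add_atTop_nat 1)
  have h2 : Tendsto (fun N => Ps (n + 1) (F (n + 1) N z)) atTop (𝓝 (Ps (n + 1) (T (n + 1) z))) :=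
    ((Ps_continuous (n + 1)).tendsto _).comp (T_spec (n + 1) z)
  exact tendsto_nhds_unique h1 h2

/-- the final map -/
noncomputable def f (z : ℂ) : ℂ := T 0 z

theorem f_eq (n : ℕ) (z : ℂ) : f z = P n (T n z) := by
  induction n with
  | zero => rfl
  | succ n ih =>
    rw [ih, T_rec]
    rfl

theorem f_P (n : ℕ) (z : ℂ) : ‖f z - P n z‖ ≤ dl n := by
  rw [f_eq n z]
  refine (P_lip n _ _).trans ?_
  have h1 := T_dist n z
  have h2 := dl_mul n
  have h3 := dl_pos (n + 1)
  have h4 : (2:ℝ) ^ n * ‖T n z - z‖ ≤ 2 ^ n * (dl (n + 1) / 8) :=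
    mul_le_mul_of_nonneg_left h1 (by positivity)
  refine h4.trans ?_
  rw [← h2, pow_add]
  have h5 : (2:ℝ) ^ n * (dl (n + 1) / 8) = dl (n + 1) * (2 ^ n * (1 / 8)) := by ring
  rw [h5]
  apply mul_le_mul_of_nonneg_left _ h3.le
  apply mul_le_mul_of_nonneg_left _ (by positivity)
  norm_num

theorem f_inj : Function.Injective f := by
  intro z w h
  have h1 : ∀ n, ‖z - w‖ ≤ dl (n + 1) := by
    intro n
    have h2 : T n z = T n w := by
      apply P_inj n
      rw [← f_eq, ← f_eq, h]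
    have h3 := T_dist n z
    have h4 := T_dist n w
    have h5 : z - w = (T n w - w) - (T n z - z) := by rw [h2]; ring
    rw [h5]
    refine (norm_sub_le _ _).trans ?_
    have := dl_pos (n + 1)
    linarith
  have h2 : Tendsto (fun n => dl (n + 1)) atTop (𝓝 0) := dl_tendsto.comp (tendsto_add_atTop_nat 1)
  have h3 : ‖z - w‖ ≤ 0 := ge_of_tendsto' h2 h1
  exact sub_eq_zero.1 (norm_eq_zero.1 (le_antisymm h3 (norm_nonneg _)))

theorem f_unif : TendstoUniformly (fun n => P n) f atTop := by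
  rw [Metric.tendstoUniformly_iff]
  intro ε hε
  filter_upwards [(tendsto_order.1 dl_tendsto).2 ε hε] with n hn z
  rw [dist_eq_norm]
  exact (f_P n z).trans_lt hn

theorem f_cont : Continuous f :=
  f_unif.continuous (Frequently.of_forall P_cont)

noncomputable def Ph (n : ℕ) : ℂ → ℂ := Function.surjInv (Ps_surj n)

theorem Ps_Ph (n : ℕ) (z : ℂ) : Ps n (Ph n z) = z := Function.surjInv_eq (Ps_surj n) z

theorem Ph_dist (n : ℕ) (z : ℂ) : ‖Ph n z - z‖ ≤ dl n / 12 := by
  have := Ps_dist n (Ph n z)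
  rw [Ps_Ph] at this
  rw [norm_sub_rev]
  exact this

theorem Ph_cont (n : ℕ) : Continuous (Ph n) := by
  have : LipschitzWith (4 / 3) (Ph n) := by
    refine LipschitzWith.of_dist_le_mul fun z w => ?_
    rw [dist_eq_norm, dist_eq_norm]
    have := Ps_lower n (Ph n z) (Ph n w)
    rw [Ps_Ph, Ps_Ph] at this
    simp only [NNReal.coe_div, NNReal.coe_ofNat]
    linarith
  exact this.continuous

noncomputable def G : ℕ → ℂ → ℂ
  | 0 => id
  | n + 1 => Ph (n + 1) ∘ G n

theorem P_G (n : ℕ) (w : ℂ) : P n (G n w) = w := by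
  induction n with
  | zero => rfl
  | succ n ih =>
    have : P (n + 1) (G (n + 1) w) = P n (Ps (n + 1) (Ph (n + 1) (G n w))) := rfl
    rw [this, Ps_Ph, ih]

theorem G_cont (n : ℕ) : Continuous (G n) := by
  induction n with
  | zero => exact continuous_id
  | succ n ih => exact (Ph_cont _).comp ih

theorem G_step (n : ℕ) (z : ℂ) : dist (G n z) (G (n + 1) z) ≤ 1 / 12 * (1 / 2) ^ n := by
  rw [dist_comm, dist_eq_norm]
  have h1 : ‖G (n + 1) z - G n z‖ ≤ dl (n + 1) / 12 := Ph_dist (n + 1) (G n z)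
  have h2 := dl_geom 0 (n + 1)
  rw [zero_add] at h2
  simp only [dl] at h2
  have h3 : dl (n + 1) ≤ (1 / 2) ^ n := by
    rw [one_div, inv_pow, ← one_div, le_div_iff₀ (by positivity)]
    refine le_trans ?_ h2
    apply mul_le_mul_of_nonneg_left _ (dl_pos (n + 1)).le
    calc (2:ℝ) ^ n ≤ 4 ^ n := pow_le_pow_left₀ (by norm_num) (by norm_num) n
      _ ≤ 4 ^ (n + 1) := pow_le_pow_right₀ (by norm_num) (by omega)
  linarith

theorem G_cauchy (z : ℂ) : ∃ l, Tendsto (fun N => G N z) atTop (𝓝 l) := by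
  apply cauchySeq_tendsto_of_complete
  exact cauchySeq_of_le_geometric (1 / 2) (1 / 12) (by norm_num) (G_step · z)

noncomputable def gi (z : ℂ) : ℂ := (G_cauchy z).choose

theorem gi_spec (z : ℂ) : Tendsto (fun N => G N z) atTop (𝓝 (gi z)) := (G_cauchy z).choose_spec

theorem gi_unif : TendstoUniformly (fun n => G n) gi atTop := by
  rw [Metric.tendstoUniformly_iff]
  intro ε hε
  have h : Tendsto (fun n : ℕ => (1 / 12) * ((1:ℝ) / 2) ^ n / (1 - 1 / 2)) atTop (𝓝 0) := by
    have h1 : Tendsto (fun n : ℕ => ((1:ℝ) / 2) ^ n) atTop (𝓝 0) :=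
      tendsto_pow_atTop_nhds_zero_of_lt_one (by norm_num) (by norm_num)
    have h2 := (h1.const_mul ((1:ℝ)/12)).div_const ((1:ℝ) - 1 / 2)
    simpa using h2
  filter_upwards [(tendsto_order.1 h).2 ε hε] with n hn z
  have := dist_le_of_le_geometric_of_tendsto (1 / 2) (1 / 12) (by norm_num) (G_step · z)
    (gi_spec z) n
  rw [dist_comm]
  exact this.trans_lt hn

theorem gi_cont : Continuous gi :=
  gi_unif.continuous (Frequently.of_forall G_cont)

theorem f_gi (w : ℂ) : f (gi w) = w := by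
  have h1 : Tendsto (fun n => f (G n w)) atTop (𝓝 (f (gi w))) :=
    (f_cont.tendsto _).comp (gi_spec w)
  have h2 : Tendsto (fun n => f (G n w)) atTop (𝓝 w) := by
    rw [tendsto_iff_norm_sub_tendsto_zero]
    refine squeeze_zero (fun _ => norm_nonneg _) (fun n => ?_) dl_tendsto
    have := f_P n (G n w)
    rwa [P_G] at this
  exact tendsto_nhds_unique h1 h2

/-- the homeomorphism -/
noncomputable def fh : ℂ ≃ₜ ℂ where
  toFun := f
  invFun := gi
  left_inv := fun z => f_inj (f_gi (f z))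
  right_inv := f_gi
  continuous_toFun := f_cont
  continuous_invFun := gi_cont

theorem fh_apply (z : ℂ) : fh z = f z := rfl

end Pool.Agent.H744R3.QCL
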