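import Pool.Agent.H744R3.QCL3

set_option autoImplicit false
open Set Filter Topology

namespace Pool.Agent.H744R3.QCL

/-- near-affine estimate for the compositions -/
theorem P_near (n : ℕ) : ∀ z0 : ℂ, (∃ c ∈ C n, |z0.re - c| ≤ 10 * dl (n + 1)) →
    ∃ a : ℂ, a ≠ 0 ∧ ∀ u v : ℂ, ‖u - z0‖ ≤ 64 * dl (n + 1) → ‖v - z0‖ ≤ 64 * dl (n + 1) →
      ‖P n u - P n v - a * (u - v)‖ ≤ (1 - 1 / 2 ^ n) / 2 ^ 14 * (‖a‖ * ‖u - v‖) := by
  induction n with
  | zero =>
    intro z0 _
    refine ⟨1, one_ne_zero, fun u v _ _ => ?_⟩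
    simp [P]
  | succ n ih =>
    rintro z0 ⟨c, hc, hz⟩
    have hd := dl_pos (n + 1)
    have hd2 := dl_pos (n + 1 + 1)
    have hds := dl_succ_le' (n + 1)
    obtain ⟨c', hc', hcc⟩ := C_parent n hc
    have hz1 : ‖Ps (n + 1) z0 - z0‖ ≤ dl (n + 1) / 12 := Ps_dist _ _
    obtain ⟨a, ha, hA⟩ := ih (Ps (n + 1) z0) ⟨c', hc', by
      have h1 : |(Ps (n + 1) z0).re - z0.re| ≤ dl (n + 1) / 12 := by
        rw [← Complex.sub_re]; exact (Complex.abs_re_le_norm _).trans hz1
      rw [show (Ps (n + 1) z0).re - c' = ((Ps (n + 1) z0).re - z0.re) + (z0.re - c) + (c - c') by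
        ring]
      refine (abs_add_le _ _).trans ?_
      refine (add_le_add (abs_add_le _ _) le_rfl).trans ?_
      linarith⟩
    obtain ⟨b, hb, hB⟩ := Ps_near (r := 64 * dl (n + 1 + 1)) hc hz (by linarith)
    have hb0 : 0 < ‖b‖ := by linarith
    refine ⟨a * b, mul_ne_zero ha (norm_pos_iff.1 hb0), fun u v hu hv => ?_⟩
    have huv := hB u v hu hv
    have e1 : (7 * (64 * dl (n + 1 + 1)) + 10 * dl (n + 1 + 1)) / (16 * dl (n + 1)) ≤
        1 / 2 ^ (n + 25) * ‖b‖ := by
      have h1 : dl (n + 1) = dl (n + 1 + 1) * 2 ^ (n + 31) := by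
        rw [← dl_mul (n + 1)]
      have h2 : (7 * (64 * dl (n + 1 + 1)) + 10 * dl (n + 1 + 1)) / (16 * dl (n + 1)) =
          (458 / 16) / 2 ^ (n + 31) := by
        rw [h1]; field_simp
        try norm_num
      rw [h2]
      have h3 : (1:ℝ) / 2 ^ (n + 25) = 64 / 2 ^ (n + 31) := by
        rw [show n + 31 = (n + 25) + 6 by ring, pow_add 2 (n + 25) 6]; field_simp; norm_num
      rw [h3]
      rw [div_mul_eq_mul_div]
      apply div_le_div_of_nonneg_right _ (by positivity)
      linarith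
    have huv2 : ‖Ps (n + 1) u - Ps (n + 1) v - b * (u - v)‖ ≤
        1 / 2 ^ (n + 25) * (‖b‖ * ‖u - v‖) := by
      refine huv.trans ?_
      rw [← mul_assoc (1 / 2 ^ (n + 25) : ℝ)]
      exact mul_le_mul_of_nonneg_right e1 (norm_nonneg _)
    have hu' : ‖Ps (n + 1) u - Ps (n + 1) z0‖ ≤ 64 * dl (n + 1) := by
      refine (Ps_upper _ _ _).trans ?_
      linarith
    have hv' : ‖Ps (n + 1) v - Ps (n + 1) z0‖ ≤ 64 * dl (n + 1) := by
      refine (Ps_upper _ _ _).trans ?_
      linarith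
    have hA' := hA _ _ hu' hv'
    set X := Ps (n + 1) u - Ps (n + 1) v with hX
    have hX1 : ‖X‖ ≤ (1 + 1 / 2 ^ (n + 25)) * (‖b‖ * ‖u - v‖) := by
      have h1 : X = (X - b * (u - v)) + b * (u - v) := by ring
      rw [h1]
      refine (norm_add_le _ _).trans ?_
      rw [norm_mul b]
      linarith
    have e2 : P (n + 1) u - P (n + 1) v - a * b * (u - v) =
        (P n (Ps (n + 1) u) - P n (Ps (n + 1) v) - a * X) + a * (X - b * (u - v)) := by
      simp only [P, Function.comp]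
      ring
    rw [e2]
    refine (norm_add_le _ _).trans ?_
    rw [norm_mul a (X - _), norm_mul a b]
    have ha0 : 0 < ‖a‖ := norm_pos_iff.2 ha
    set K := ‖b‖ * ‖u - v‖ with hK
    have hK0 : 0 ≤ K := by positivity
    set ε : ℝ := (1 - 1 / 2 ^ n) / 2 ^ 14 with hε
    have hε0 : 0 ≤ ε := by
      rw [hε]
      have : (1:ℝ) / 2 ^ n ≤ 1 := by
        rw [div_le_one (by positivity)]
        exact one_le_pow₀ (by norm_num)
      apply div_nonneg _ (by positivity)
      linarith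
    have hε1 : ε ≤ 1 := by
      rw [hε]
      have : (0:ℝ) ≤ 1 / 2 ^ n := by positivity
      rw [div_le_one (by positivity)]
      have h14 : (1:ℝ) ≤ 2 ^ 14 := by norm_num
      linarith
    have s1 : ε * (‖a‖ * ‖X‖) ≤ ε * (‖a‖ * ((1 + 1 / 2 ^ (n + 25)) * K)) := by
      apply mul_le_mul_of_nonneg_left _ hε0
      apply mul_le_mul_of_nonneg_left hX1 ha0.le
    have s2 : ‖a‖ * ‖X - b * (u - v)‖ ≤ ‖a‖ * (1 / 2 ^ (n + 25) * K) :=
      mul_le_mul_of_nonneg_left huv2 ha0.le
    have s3 : ‖P n (Ps (n + 1) u) - P n (Ps (n + 1) v) - a * X‖ + ‖a‖ * ‖X - b * (u - v)‖ ≤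
        (ε * (1 + 1 / 2 ^ (n + 25)) + 1 / 2 ^ (n + 25)) * (‖a‖ * K) := by
      have : (ε * (1 + 1 / 2 ^ (n + 25)) + 1 / 2 ^ (n + 25)) * (‖a‖ * K) =
        ε * (‖a‖ * ((1 + 1 / 2 ^ (n + 25)) * K)) + ‖a‖ * (1 / 2 ^ (n + 25) * K) := by ring
      rw [this]
      linarith
    refine s3.trans ?_
    have s4 : ε * (1 + 1 / 2 ^ (n + 25)) + 1 / 2 ^ (n + 25) ≤ (1 - 1 / 2 ^ (n + 1)) / 2 ^ 14 := by
      have t1 : (1:ℝ) / 2 ^ (n + 25) = (1 / 2 ^ n) / 2 ^ 25 := by rw [pow_add]; field_simp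
      have t2 : (1:ℝ) / 2 ^ (n + 1) = (1 / 2 ^ n) / 2 := by rw [pow_add]; field_simp
      rw [t1, t2]
      set y : ℝ := 1 / 2 ^ n with hy
      have hy0 : 0 ≤ y := by positivity
      have : ε * (y / 2 ^ 25) ≤ y / 2 ^ 25 := by
        have : 0 ≤ y / 2 ^ 25 := by positivity
        nlinarith
      have h3 : ε * (1 + y / 2 ^ 25) = ε + ε * (y / 2 ^ 25) := by ring
      have h4 : ε = (1 - y) / 2 ^ 14 := hε
      rw [h3]
      norm_num at h4 this ⊢
      linarith
    have s5 : ‖a‖ * ‖b‖ * ‖u - v‖ = ‖a‖ * K := by rw [hK]; ring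
    rw [s5]
    exact mul_le_mul_of_nonneg_right s4 (by positivity)

/-- simplified two-sided form -/
theorem P_near' (n : ℕ) (z0 : ℂ) (h : ∃ c ∈ C n, |z0.re - c| ≤ 10 * dl (n + 1)) :
    ∃ a : ℝ, 0 < a ∧ ∀ u v : ℂ, ‖u - z0‖ ≤ 64 * dl (n + 1) → ‖v - z0‖ ≤ 64 * dl (n + 1) →
      ‖P n u - P n v‖ ≤ (1 + 1 / 2 ^ 14) * (a * ‖u - v‖) ∧
      (1 - 1 / 2 ^ 14) * (a * ‖u - v‖) ≤ ‖P n u - P n v‖ := by
  obtain ⟨a, ha, hA⟩ := P_near n z0 h
  refine ⟨‖a‖, norm_pos_iff.2 ha, fun u v hu hv => ?_⟩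
  have h1 := hA u v hu hv
  have h2 : (1 - 1 / 2 ^ n) / 2 ^ 14 * (‖a‖ * ‖u - v‖) ≤ 1 / 2 ^ 14 * (‖a‖ * ‖u - v‖) := by
    apply mul_le_mul_of_nonneg_right _ (by positivity)
    apply div_le_div_of_nonneg_right _ (by positivity)
    have : (0:ℝ) ≤ 1 / 2 ^ n := by positivity
    linarith
  constructor
  · have h3 : P n u - P n v = (P n u - P n v - a * (u - v)) + a * (u - v) := by ring
    rw [h3]
    refine (norm_add_le _ _).trans ?_
    rw [norm_mul a]
    linarith
  · have h3 := norm_sub_norm_le (a * (u - v)) (-(P n u - P n v - a * (u - v)))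
    rw [norm_neg, norm_mul] at h3
    have h4 : a * (u - v) - -(P n u - P n v - a * (u - v)) = P n u - P n v := by ring
    rw [h4] at h3
    linarith

/-- closed strips -/
def S (n : ℕ) : Set ℂ := {z | ∃ c ∈ C n, |z.re - c| ≤ dl n}

theorem S_closed (n : ℕ) : IsClosed (S n) := by
  have : S n = ⋃ c ∈ C n, {z : ℂ | |z.re - c| ≤ dl n} := by
    ext z; simp [S]
  rw [this]
  refine (C_finite n).isClosed_biUnion fun c _ => ?_
  exact isClosed_le (by fun_prop) continuous_const

theorem S_nested {n : ℕ} {z : ℂ} (h : z ∈ S (n + 1)) : ∃ c ∈ C n, |z.re - c| ≤ 5 * dl (n + 1) := by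
  obtain ⟨c, hc, hz⟩ := h
  obtain ⟨c', hc', hcc⟩ := C_parent n hc
  refine ⟨c', hc', ?_⟩
  rw [show z.re - c' = (z.re - c) + (c - c') by ring]
  refine (abs_add_le _ _).trans ?_
  linarith

theorem S_anti {n : ℕ} {z : ℂ} (h : z ∈ S (n + 1)) : z ∈ S n := by
  obtain ⟨c, hc, hz⟩ := S_nested h
  refine ⟨c, hc, hz.trans ?_⟩
  have := dl_succ_le' n
  have := dl_pos (n + 1)
  linarith

theorem S_anti' {n : ℕ} (N : ℕ) {z : ℂ} (h : z ∈ S (n + N)) : z ∈ S n := by
  induction N with
  | zero => exact h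
  | succ N ih => exact ih (S_anti h)

theorem F_id {n : ℕ} {z : ℂ} (h : z ∉ S (n + 1)) (N : ℕ) : F n N z = z := by
  induction N with
  | zero => rfl
  | succ N ih =>
    rw [F_right]
    have h1 : Ps (n + N + 1) z = z := by
      apply Ps_eq_self
      intro c hc
      by_contra hlt
      push Not at hlt
      apply h
      have h2 : z ∈ S (n + 1 + N) := by
        rw [show n + 1 + N = n + N + 1 by ring]
        exact ⟨c, hc, hlt.le⟩
      exact S_anti' N h2
    simp only [Function.comp]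
    rw [h1, ih]

theorem T_id {n : ℕ} {z : ℂ} (h : z ∉ S (n + 1)) : T n z = z := by
  refine tendsto_nhds_unique (T_spec n z) ?_
  simp only [F_id h]
  exact tendsto_const_nhds

/-- the metric definition of quasiconformality -/
theorem f_qc (x : ℂ) : ∃ δ > (0 : ℝ), ∀ y z : ℂ, dist y x = dist z x → dist y x < δ →
    dist (f y) (f x) ≤ 4 * dist (f z) (f x) := by
  by_cases hx : ∀ n, x ∈ S (n + 1)
  · -- limit point
    refine ⟨dl 1, dl_pos 1, fun y z hyz hy => ?_⟩
    simp only [dist_eq_norm] at *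
    rcases eq_or_lt_of_le (norm_nonneg (y - x)) with h0 | h0
    · have : y = x := sub_eq_zero.1 (norm_eq_zero.1 h0.symm)
      rw [this]
      simp
    · -- find the scale
      have hex : ∃ n, dl (n + 2) ≤ ‖y - x‖ := by
        have h1 : Tendsto (fun n => dl (n + 2)) atTop (𝓝 0) :=
          dl_tendsto.comp (tendsto_add_atTop_nat 2)
        exact ((tendsto_order.1 h1).2 _ h0).exists.imp fun n hn => le_of_lt hn
      classical
      obtain ⟨n, hn1, hn2⟩ : ∃ n, dl (n + 2) ≤ ‖y - x‖ ∧ ‖y - x‖ < dl (n + 1) := by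
        refine ⟨Nat.find hex, Nat.find_spec hex, ?_⟩
        rcases Nat.eq_zero_or_pos (Nat.find hex) with h | h
        · rw [h]; exact hy
        · have h2 := Nat.find_min hex (Nat.sub_lt h one_pos)
          push Not at h2
          have h3 : Nat.find hex - 1 + 2 = Nat.find hex + 1 := by omega
          rw [h3] at h2
          exact h2
      obtain ⟨c, hc, hxc⟩ := S_nested (hx n)
      have hd := dl_pos (n + 1)
      have hd2 := dl_pos (n + 2)
      have hds := dl_succ_le' (n + 1)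
      obtain ⟨a, ha, hA⟩ := P_near' n x ⟨c, hc, by linarith⟩
      have hf : ∀ w, f w = P n (Ps (n + 1) (T (n + 1) w)) := fun w => by
        rw [f_eq (n + 1) w]; rfl
      have hT : ∀ w, ‖T (n + 1) w - w‖ ≤ dl (n + 2) / 8 := fun w => T_dist (n + 1) w
      have hclose : ∀ w, ‖w - x‖ < dl (n + 1) →
          ‖Ps (n + 1) (T (n + 1) w) - x‖ ≤ 64 * dl (n + 1) := by
        intro w hw
        have h1 := Ps_dist (n + 1) (T (n + 1) w)
        have h2 := hT w
        rw [show Ps (n + 1) (T (n + 1) w) - x = (Ps (n + 1) (T (n + 1) w) - T (n + 1) w) +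
          (T (n + 1) w - w) + (w - x) by ring]
        refine (norm_add_le _ _).trans ?_
        refine (add_le_add (norm_add_le _ _) le_rfl).trans ?_
        have h5 : dl (n + 2) * 1073741824 ≤ dl (n + 1) := hds
        linarith
      have hxx : ‖x - x‖ < dl (n + 1) := by simpa using hd
      have hcx := hclose x hxx
      have hcy := hclose y hn2
      have hcz := hclose z (by rw [← hyz]; exact hn2)
      obtain ⟨hy1, _⟩ := hA _ _ hcy hcx
      obtain ⟨_, hz2⟩ := hA _ _ hcz hcx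
      have hy3 := Ps_upper (n + 1) (T (n + 1) y) (T (n + 1) x)
      have hz3 := Ps_lower (n + 1) (T (n + 1) z) (T (n + 1) x)
      have hy4 : ‖T (n + 1) y - T (n + 1) x‖ ≤ 5 / 4 * ‖y - x‖ := by
        rw [show T (n + 1) y - T (n + 1) x = (T (n + 1) y - y) + (y - x) - (T (n + 1) x - x) by ring]
        refine (norm_sub_le _ _).trans ?_
        refine (add_le_add (norm_add_le _ _) le_rfl).trans ?_
        have h1 := hT y
        have h2 := hT x
        linarith
      have hz4 : 3 / 4 * ‖y - x‖ ≤ ‖T (n + 1) z - T (n + 1) x‖ := by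
        have h0 : z - x = (T (n + 1) z - T (n + 1) x) - (T (n + 1) z - z) + (T (n + 1) x - x) := by
          ring
        have h1 : ‖z - x‖ ≤ ‖T (n + 1) z - T (n + 1) x‖ + ‖T (n + 1) z - z‖ +
            ‖T (n + 1) x - x‖ := by
          calc ‖z - x‖ = ‖(T (n + 1) z - T (n + 1) x) - (T (n + 1) z - z) + (T (n + 1) x - x)‖ := by
                rw [← h0]
            _ ≤ ‖(T (n + 1) z - T (n + 1) x) - (T (n + 1) z - z)‖ + ‖T (n + 1) x - x‖ :=
                norm_add_le _ _
            _ ≤ _ := by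
                have := norm_sub_le (T (n + 1) z - T (n + 1) x) (T (n + 1) z - z)
                linarith
        have h2 := hT z
        have h3 := hT x
        rw [← hyz] at h1
        linarith
      rw [← hf, ← hf] at hy1 hz2
      have hy5 : ‖f y - f x‖ ≤ (1 + 1 / 2 ^ 14) * (a * (5 / 4 * (5 / 4 * ‖y - x‖))) := by
        refine hy1.trans ?_
        apply mul_le_mul_of_nonneg_left _ (by positivity)
        apply mul_le_mul_of_nonneg_left _ ha.le
        linarith
      have hz5 : (1 - 1 / 2 ^ 14) * (a * (3 / 4 * (3 / 4 * ‖y - x‖))) ≤ ‖f z - f x‖ := by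
        refine le_trans ?_ hz2
        apply mul_le_mul_of_nonneg_left _ (by norm_num)
        apply mul_le_mul_of_nonneg_left _ ha.le
        linarith
      have hpos : 0 ≤ a * ‖y - x‖ := by positivity
      have h9 : (1 + 1 / 2 ^ 14) * (a * (5 / 4 * (5 / 4 * ‖y - x‖))) ≤
          4 * ((1 - 1 / 2 ^ 14) * (a * (3 / 4 * (3 / 4 * ‖y - x‖)))) := by
        nlinarith
      linarith
  · -- locally a finite composition
    push Not at hx
    classical
    have hmin := Nat.find_spec hx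
    set n := Nat.find hx with hn
    have hopen : IsOpen (S (n + 1))ᶜ := (S_closed (n + 1)).isOpen_compl
    obtain ⟨δ, hδ, hball⟩ := Metric.isOpen_iff.1 hopen x hmin
    have hfP : ∀ w, dist w x < δ → f w = P n w := by
      intro w hw
      rw [f_eq n w, T_id (hball hw)]
    rcases Nat.eq_zero_or_pos n with h0 | h0
    · refine ⟨δ, hδ, fun y z hyz hy => ?_⟩
      rw [hfP y hy, hfP z (hyz ▸ hy), hfP x (by simpa using hδ), h0]
      simp only [P, id]
      rw [hyz]
      have := dist_nonneg (x := z) (y := x)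
      linarith
    · obtain ⟨m, hm⟩ : ∃ m, n = m + 1 := ⟨n - 1, by omega⟩
      have hxS : x ∈ S (m + 1) := by
        by_contra hcon
        exact Nat.find_min hx (by omega : m < Nat.find hx) hcon
      obtain ⟨c, hc, hxc⟩ := S_nested hxS
      have hd := dl_pos (m + 1)
      obtain ⟨a, ha, hA⟩ := P_near' m x ⟨c, hc, by linarith⟩
      refine ⟨min δ (dl (m + 1)), lt_min hδ hd, fun y z hyz hy => ?_⟩
      have hyd := hy.trans_le (min_le_right _ _)
      rw [hfP y (hy.trans_le (min_le_left _ _)), hfP z (hyz ▸ (hy.trans_le (min_le_left _ _))),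
        hfP x (by simpa using hδ), hm]
      simp only [P, Function.comp]
      have hclose : ∀ w, dist w x < dl (m + 1) →
          ‖Ps (m + 1) w - x‖ ≤ 64 * dl (m + 1) := by
        intro w hw
        rw [dist_eq_norm] at hw
        have h1 := Ps_dist (m + 1) w
        rw [show Ps (m + 1) w - x = (Ps (m + 1) w - w) + (w - x) by ring]
        refine (norm_add_le _ _).trans ?_
        linarith
      have hcx := hclose x (by simpa using hd)
      have hcy := hclose y hyd
      have hcz := hclose z (hyz ▸ hyd)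
      obtain ⟨hy1, _⟩ := hA _ _ hcy hcx
      obtain ⟨_, hz2⟩ := hA _ _ hcz hcx
      have hy3 := Ps_upper (m + 1) y x
      have hz3 := Ps_lower (m + 1) z x
      simp only [dist_eq_norm] at *
      rw [← hyz] at hz3
      have hy5 : ‖P m (Ps (m + 1) y) - P m (Ps (m + 1) x)‖ ≤
          (1 + 1 / 2 ^ 14) * (a * (5 / 4 * ‖y - x‖)) := by
        refine hy1.trans ?_
        apply mul_le_mul_of_nonneg_left _ (by positivity)
        exact mul_le_mul_of_nonneg_left hy3 ha.le
      have hz5 : (1 - 1 / 2 ^ 14) * (a * (3 / 4 * ‖y - x‖)) ≤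
          ‖P m (Ps (m + 1) z) - P m (Ps (m + 1) x)‖ := by
        refine le_trans ?_ hz2
        apply mul_le_mul_of_nonneg_left _ (by norm_num)
        exact mul_le_mul_of_nonneg_left hz3 ha.le
      have hpos : 0 ≤ a * ‖y - x‖ := by positivity
      nlinarith

end Pool.Agent.H744R3.QCL
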