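import Pool.Agent.H744R3.QCL4

set_option autoImplicit false
open Set Filter Topology

namespace Pool.Agent.H744R3.QCL

/-! ### The uncountable set -/

/-- the set of abscissae -/
def E : Set ℝ := {x | ∀ n, ∃ c ∈ C n, |x - c| ≤ 8 * dl (n + 1)}

noncomputable def ps (s : ℕ → Bool) : ℕ → ℝ
  | 0 => 0
  | n + 1 => ps s n + (if s n then 4 * dl (n + 1) else 0)

theorem ps_mem (s : ℕ → Bool) (n : ℕ) : ps s n ∈ C n := by
  induction n with
  | zero => simp [ps, C]
  | succ n ih =>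
    show ps s n + (if s n then 4 * dl (n + 1) else 0) ∈ C n ∨
      ps s n + (if s n then 4 * dl (n + 1) else 0) - 4 * dl (n + 1) ∈ C n
    by_cases h : s n = true
    · right; simp [h]; exact ih
    · left; simp [h]; exact ih

theorem dl_le_half (n : ℕ) : dl (n + 1) ≤ (1 / 2) ^ n := by
  have h2 := dl_geom 0 (n + 1)
  rw [zero_add] at h2
  simp only [dl] at h2
  rw [one_div, inv_pow, ← one_div, le_div_iff₀ (by positivity)]
  refine le_trans ?_ h2
  apply mul_le_mul_of_nonneg_left _ (dl_pos (n + 1)).le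
  calc (2:ℝ) ^ n ≤ 4 ^ n := pow_le_pow_left₀ (by norm_num) (by norm_num) n
    _ ≤ 4 ^ (n + 1) := pow_le_pow_right₀ (by norm_num) (by omega)

theorem ps_step (s : ℕ → Bool) (n : ℕ) : |ps s (n + 1) - ps s n| ≤ 4 * dl (n + 1) := by
  have := dl_pos (n + 1)
  have e : ps s (n + 1) - ps s n = if s n then 4 * dl (n + 1) else 0 := by
    simp [ps]
  rw [e]
  split_ifs
  · rw [abs_of_pos (by positivity)]
  · simp; positivity

theorem ps_far (s : ℕ → Bool) (N : ℕ) : ∀ n, |ps s (n + N) - ps s n| ≤ 6 * dl (n + 1) := by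
  induction N with
  | zero => intro n; have := dl_pos (n + 1); simp; positivity
  | succ N ih =>
    intro n
    have h1 := ih (n + 1)
    have h2 := ps_step s n
    have h3 := dl_succ_le' (n + 1)
    have h4 := dl_pos (n + 1)
    rw [show n + (N + 1) = n + 1 + N by ring]
    rw [show ps s (n + 1 + N) - ps s n = (ps s (n + 1 + N) - ps s (n + 1)) +
      (ps s (n + 1) - ps s n) by ring]
    refine (abs_add_le _ _).trans ?_
    linarith

theorem xs_ex (s : ℕ → Bool) : ∃ l, Tendsto (ps s) atTop (𝓝 l) := by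
  apply cauchySeq_tendsto_of_complete
  refine cauchySeq_of_le_geometric (1 / 2) 4 (by norm_num) fun n => ?_
  rw [dist_comm, Real.dist_eq]
  have h1 := ps_step s n
  have h2 := dl_le_half n
  linarith

noncomputable def xs (s : ℕ → Bool) : ℝ := (xs_ex s).choose

theorem xs_near (s : ℕ → Bool) (n : ℕ) : |xs s - ps s n| ≤ 6 * dl (n + 1) := by
  have h1 : Tendsto (fun N => ps s (n + N)) atTop (𝓝 (xs s)) := by
    have := (xs_ex s).choose_spec.comp (tendsto_add_atTop_nat n)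
    refine this.congr fun N => ?_
    simp [add_comm]
  exact le_of_tendsto' ((h1.sub_const _).abs) (fun N => ps_far s N n)

theorem xs_mem (s : ℕ → Bool) : xs s ∈ E := by
  intro n
  refine ⟨_, ps_mem s n, (xs_near s n).trans ?_⟩
  have := dl_pos (n + 1)
  linarith

theorem ps_congr {s s' : ℕ → Bool} {n : ℕ} (h : ∀ k < n, s k = s' k) : ps s n = ps s' n := by
  induction n with
  | zero => rfl
  | succ n ih =>
    simp only [ps]
    rw [ih (fun k hk => h k (by omega)), h n (by omega)]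

theorem xs_inj : Function.Injective xs := by
  intro s s' hs
  by_contra hne
  have hex : ∃ n, s n ≠ s' n := Function.ne_iff.1 hne
  classical
  have h1 := Nat.find_spec hex
  set n := Nat.find hex with hn
  have h2 : ps s n = ps s' n := ps_congr fun k hk => by
    have := Nat.find_min hex (hn ▸ hk)
    push Not at this
    exact this
  have h3 : |ps s (n + 1) - ps s' (n + 1)| = 4 * dl (n + 1) := by
    have hd := dl_pos (n + 1)
    simp only [ps, h2]
    cases hsn : s n <;> cases hsn' : s' n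
    · exact absurd (hsn.trans hsn'.symm) h1
    · simp; positivity
    · simp; positivity
    · exact absurd (hsn.trans hsn'.symm) h1
  have h4 := xs_near s (n + 1)
  have h5 := xs_near s' (n + 1)
  rw [hs] at h4
  have h6 : |ps s (n + 1) - ps s' (n + 1)| ≤ 12 * dl (n + 1 + 1) := by
    rw [show ps s (n + 1) - ps s' (n + 1) = (xs s' - ps s' (n + 1)) - (xs s' - ps s (n + 1)) by
      ring]
    refine (abs_sub _ _).trans ?_
    linarith
  have h7 := dl_succ_le' (n + 1)
  have h8 := dl_pos (n + 1)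
  have h9 := dl_pos (n + 1 + 1)
  linarith

theorem mk_nat_bool : Cardinal.mk (ℕ → Bool) = 2 ^ Cardinal.aleph0 := by
  simp

theorem E_uncountable : ¬ E.Countable := by
  intro h
  have h1 : (range xs).Countable := h.mono (by rintro _ ⟨s, rfl⟩; exact xs_mem s)
  have h2 : Countable (ℕ → Bool) := by
    rw [← Set.image_univ] at h1
    have := Set.countable_of_injective_of_countable_image (xs_inj.injOn) h1
    exact Set.countable_univ_iff.1 this
  have h3 : Cardinal.mk (ℕ → Bool) ≤ Cardinal.aleph0 := Cardinal.mk_le_aleph0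
  rw [mk_nat_bool] at h3
  exact absurd h3 (not_le.2 (Cardinal.cantor _))

theorem E_gap {x x' : ℝ} (hx : x ∈ E) (hx' : x' ∈ E) (h : x < x') : ∃ t ∈ Ioo x x', t ∉ E := by
  have hne : ∃ n, ∀ c ∈ C n, |x - c| ≤ 8 * dl (n + 1) → ¬ |x' - c| ≤ 8 * dl (n + 1) := by
    by_contra hcon
    push Not at hcon
    have h1 : ∀ n, x' - x ≤ 16 * dl (n + 1) := by
      intro n
      obtain ⟨c, _, h2, h3⟩ := hcon n
      have h4 := (abs_le.1 h2).1
      have h5 := (abs_le.1 h3).2
      linarith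
    have h2 : Tendsto (fun n => 16 * dl (n + 1)) atTop (𝓝 0) := by
      simpa using (dl_tendsto.comp (tendsto_add_atTop_nat 1)).const_mul 16
    have h3 : x' - x ≤ 0 := ge_of_tendsto' h2 h1
    linarith
  obtain ⟨n, hn⟩ := hne
  obtain ⟨c, hc, hxc⟩ := hx n
  obtain ⟨c', hc', hxc'⟩ := hx' n
  have hcc : c ≠ c' := by
    rintro rfl
    exact hn c hc hxc hxc'
  have h1 := C_sep n c hc c' hc' hcc
  have hd := dl_pos n
  have hd1 := dl_pos (n + 1)
  have hds := dl_succ_le' n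
  have a1 := abs_le.1 hxc
  have a2 := abs_le.1 hxc'
  have hlt : c < c' := by
    rcases lt_or_gt_of_ne hcc with h2 | h2
    · exact h2
    · rw [abs_of_pos (by linarith)] at h1
      linarith
  rw [abs_of_neg (by linarith)] at h1
  refine ⟨c + dl n, ⟨by linarith, by linarith⟩, fun hE => ?_⟩
  obtain ⟨c'', hc'', ht⟩ := hE n
  have a3 := abs_le.1 ht
  by_cases e : c'' = c
  · subst e
    linarith
  · have h2 := C_sep n c'' hc'' c hc e
    have h3 : |c'' - c| < 2 * dl n := by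
      rw [abs_lt]; constructor <;> linarith
    linarith

/-! ### Growth of length -/

/-- grid points -/
noncomputable def zz (x : ℝ) (n : ℕ) (k : ℤ) : ℂ := ⟨x, k * (Real.pi * dl n)⟩

theorem zz_succ (x : ℝ) (n : ℕ) (k : ℤ) : zz x n (k + 1) - zz x n k = ⟨0, Real.pi * dl n⟩ := by
  apply Complex.ext
  · simp [zz]
  · simp [zz]; ring

theorem norm_zz_succ (x : ℝ) (n : ℕ) (k : ℤ) : ‖zz x n (k + 1) - zz x n k‖ = Real.pi * dl n := by
  rw [zz_succ]
  have : (⟨0, Real.pi * dl n⟩ : ℂ) = ((Real.pi * dl n : ℝ) : ℂ) * Complex.I := by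
    apply Complex.ext <;> simp
  rw [this, norm_mul, Complex.norm_I, mul_one, Complex.norm_real, Real.norm_eq_abs,
    abs_of_pos (mul_pos Real.pi_pos (dl_pos n))]

theorem ex_int_pi (k : ℤ) : (ex (k * Real.pi)).im = 0 ∧ (ex (k * Real.pi)).re ^ 2 = 1 := by
  have h1 : (ex (k * Real.pi)).im = Real.sin (k * Real.pi) := by
    unfold ex; exact Complex.exp_ofReal_mul_I_im _
  have h2 : (ex (k * Real.pi)).re = Real.cos (k * Real.pi) := by
    unfold ex; exact Complex.exp_ofReal_mul_I_re _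
  have h3 := Real.sin_int_mul_pi k
  refine ⟨h1.trans h3, ?_⟩
  rw [h2]
  have := Real.sin_sq_add_cos_sq (k * Real.pi)
  rw [h3] at this
  linarith

theorem ex_pi_succ (k : ℤ) : ex ((k + 1 : ℤ) * Real.pi) = - ex (k * Real.pi) := by
  have : (((k + 1 : ℤ) : ℝ) * Real.pi) = k * Real.pi + Real.pi := by push_cast; ring
  rw [this, ex_add]
  have : ex Real.pi = -1 := by unfold ex; exact Complex.exp_pi_mul_I
  rw [this]; ring

/-- a wiggle makes each cell longer -/
theorem Ps_cell {n : ℕ} {x : ℝ} (h : ∃ c ∈ C (n + 1), |x - c| ≤ 8 * dl (n + 2)) (k : ℤ) :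
    (1 + 1 / 2000) * (Real.pi * dl (n + 1)) ≤
      ‖Ps (n + 1) (zz x (n + 1) (k + 1)) - Ps (n + 1) (zz x (n + 1) k)‖ := by
  obtain ⟨c, hc, hxc⟩ := h
  have hd := dl_pos (n + 1)
  have hds : dl (n + 2) * 1073741824 ≤ dl (n + 1) := dl_succ_le' (n + 1)
  have hd2 := dl_pos (n + 2)
  set d := dl (n + 1) with hdd
  set τ := Th (n + 1) x with hτ
  have hτ1 : 99 / 100 ≤ τ := by
    rw [hτ, Th_eq hc (by linarith)]
    have h1 : |(x - c) / dl (n + 1)| ≤ 1 / 100 := by
      rw [abs_div, abs_of_pos hd, div_le_iff₀ hd]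
      linarith
    rw [ph_eq (by linarith)]
    have := (abs_le.1 h1).1
    linarith
  have him : ∀ j : ℤ, (zz x (n + 1) j).im / dl (n + 1) = j * Real.pi := by
    intro j
    simp only [zz]
    have : dl (n + 1) ≠ 0 := hd.ne'
    field_simp
  have hre : ∀ j : ℤ, (zz x (n + 1) j).re = x := fun j => rfl
  have e : Ps (n + 1) (zz x (n + 1) (k + 1)) - Ps (n + 1) (zz x (n + 1) k) =
      ⟨0, Real.pi * d⟩ - ((1 / 8 * d * τ : ℝ) : ℂ) * ex (k * Real.pi) := by
    unfold Ps gg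
    rw [him, him, hre, hre, ex_pi_succ]
    have := zz_succ x (n + 1) k
    rw [add_sub_add_comm, this]
    push_cast
    ring
  rw [e]
  obtain ⟨hi, hr⟩ := ex_int_pi k
  have hsq : ‖(⟨0, Real.pi * d⟩ : ℂ) - ((1 / 8 * d * τ : ℝ) : ℂ) * ex (k * Real.pi)‖ ^ 2 =
      (Real.pi * d) ^ 2 + (1 / 8 * d * τ) ^ 2 := by
    rw [← Complex.normSq_eq_norm_sq, Complex.normSq_apply]
    simp only [Complex.sub_re, Complex.sub_im, Complex.re_ofReal_mul, Complex.im_ofReal_mul, hi]
    have : (1 / 8 * d * τ * (ex (k * Real.pi)).re) ^ 2 = (1 / 8 * d * τ) ^ 2 := by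
      rw [mul_pow, hr, mul_one]
    nlinarith
  have hpi := Real.pi_lt_d2
  have hpi2 := Real.pi_pos
  apply le_of_sq_le_sq _ (norm_nonneg _)
  rw [hsq]
  have h1 : ((1 + 1 / 2000) * (Real.pi * d)) ^ 2 = (1 + 1 / 2000) ^ 2 * Real.pi ^ 2 * d ^ 2 := by
    ring
  rw [h1]
  have h2 : (Real.pi * d) ^ 2 + (1 / 8 * d * τ) ^ 2 = (Real.pi ^ 2 + τ ^ 2 / 64) * d ^ 2 := by ring
  rw [h2]
  apply mul_le_mul_of_nonneg_right _ (sq_nonneg _)
  have h3 : (99 / 100) ^ 2 ≤ τ ^ 2 := pow_le_pow_left₀ (by norm_num) hτ1 2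
  have h4 : Real.pi ^ 2 ≤ 3.15 ^ 2 := pow_le_pow_left₀ hpi2.le hpi.le 2
  norm_num at h3 h4 ⊢
  linarith

theorem cell_growth {n : ℕ} {x : ℝ} (h : ∃ c ∈ C (n + 1), |x - c| ≤ 8 * dl (n + 2)) (k : ℤ) :
    (1 + 1 / 4000) * ‖P n (zz x (n + 1) (k + 1)) - P n (zz x (n + 1) k)‖ ≤
      ‖P (n + 1) (zz x (n + 1) (k + 1)) - P (n + 1) (zz x (n + 1) k)‖ := by
  have hcell := Ps_cell h k
  obtain ⟨c, hc, hxc⟩ := h
  have hd := dl_pos (n + 1)
  have hds : dl (n + 2) * 1073741824 ≤ dl (n + 1) := dl_succ_le' (n + 1)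
  obtain ⟨c', hc', hcc⟩ := C_parent n hc
  have hpi := Real.pi_lt_d2
  have hpi2 := Real.pi_pos
  obtain ⟨a, ha, hA⟩ := P_near' n (zz x (n + 1) k) ⟨c', hc', by
    have : (zz x (n + 1) k).re = x := rfl
    rw [this, show x - c' = (x - c) + (c - c') by ring]
    refine (abs_add_le _ _).trans ?_
    linarith⟩
  have hn := norm_zz_succ x (n + 1) k
  have hpd : Real.pi * dl (n + 1) ≤ 4 * dl (n + 1) := by
    apply mul_le_mul_of_nonneg_right _ hd.le; linarith
  have p1 := (hA (zz x (n + 1) (k + 1)) (zz x (n + 1) k) (by rw [hn]; linarith)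
    (by rw [sub_self, norm_zero]; positivity)).1
  have q1 := Ps_dist (n + 1) (zz x (n + 1) (k + 1))
  have q2 := Ps_dist (n + 1) (zz x (n + 1) k)
  have p2 := (hA (Ps (n + 1) (zz x (n + 1) (k + 1))) (Ps (n + 1) (zz x (n + 1) k)) (by
      rw [show Ps (n + 1) (zz x (n + 1) (k + 1)) - zz x (n + 1) k =
        (Ps (n + 1) (zz x (n + 1) (k + 1)) - zz x (n + 1) (k + 1)) +
        (zz x (n + 1) (k + 1) - zz x (n + 1) k) by ring]
      refine (norm_add_le _ _).trans ?_
      rw [hn]; linarith) (by linarith)).2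
  rw [hn] at p1
  have e : ‖P (n + 1) (zz x (n + 1) (k + 1)) - P (n + 1) (zz x (n + 1) k)‖ =
    ‖P n (Ps (n + 1) (zz x (n + 1) (k + 1))) - P n (Ps (n + 1) (zz x (n + 1) k))‖ := rfl
  rw [e]
  refine le_trans ?_ p2
  have h1 : (1 - 1 / 2 ^ 14) * (a * ((1 + 1 / 2000) * (Real.pi * dl (n + 1)))) ≤
      (1 - 1 / 2 ^ 14) * (a * ‖Ps (n + 1) (zz x (n + 1) (k + 1)) - Ps (n + 1) (zz x (n + 1) k)‖) := by
    apply mul_le_mul_of_nonneg_left _ (by norm_num)
    exact mul_le_mul_of_nonneg_left hcell ha.le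
  refine le_trans ?_ h1
  have h2 : (1 + 1 / 4000) * ‖P n (zz x (n + 1) (k + 1)) - P n (zz x (n + 1) k)‖ ≤
      (1 + 1 / 4000) * ((1 + 1 / 2 ^ 14) * (a * (Real.pi * dl (n + 1)))) :=
    mul_le_mul_of_nonneg_left p1 (by norm_num)
  refine h2.trans ?_
  have h3 : 0 ≤ a * (Real.pi * dl (n + 1)) := by positivity
  have h4 : (1 + 1 / 4000) * ((1 + 1 / 2 ^ 14) * (a * (Real.pi * dl (n + 1)))) =
    ((1 + 1 / 4000) * (1 + 1 / 2 ^ 14)) * (a * (Real.pi * dl (n + 1))) := by ring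
  have h5 : (1 - 1 / 2 ^ 14) * (a * ((1 + 1 / 2000) * (Real.pi * dl (n + 1)))) =
    ((1 - 1 / 2 ^ 14) * (1 + 1 / 2000)) * (a * (Real.pi * dl (n + 1))) := by ring
  rw [h4, h5]
  apply mul_le_mul_of_nonneg_right _ h3
  norm_num

theorem zz_refine (x : ℝ) (n : ℕ) (k : ℤ) (N : ℕ) (hN : (N : ℝ) * dl (n + 1) = dl n) :
    zz x (n + 1) (k * N) = zz x n k := by
  apply Complex.ext
  · rfl
  · simp only [zz]
    push_cast
    rw [← hN]
    ring

/-- chord of the `k`-th cell of level `n` -/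
noncomputable def A (x : ℝ) (n : ℕ) (k : ℤ) : ℝ := ‖P n (zz x n (k + 1)) - P n (zz x n k)‖

theorem A_refine {x : ℝ} (hx : x ∈ E) (n : ℕ) (k : ℤ) (N : ℕ) (hN : (N : ℝ) * dl (n + 1) = dl n) :
    (1 + 1 / 4000) * A x n k ≤ ∑ j ∈ Finset.range N, A x (n + 1) (k * N + j) := by
  have h1 : A x n k ≤ ∑ j ∈ Finset.range N,
      ‖P n (zz x (n + 1) (k * N + j + 1)) - P n (zz x (n + 1) (k * N + j))‖ := by
    have := dist_le_range_sum_dist (fun j : ℕ => P n (zz x (n + 1) (k * N + j))) N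
    have e1 : zz x (n + 1) (k * N + ((0 : ℕ) : ℤ)) = zz x n k := by
      rw [← zz_refine x n k N hN, Nat.cast_zero, add_zero]
    have e2 : zz x (n + 1) (k * N + (N : ℤ)) = zz x n (k + 1) := by
      rw [← zz_refine x n (k + 1) N hN]; congr 1; ring
    rw [e1, e2, dist_comm, dist_eq_norm] at this
    refine this.trans (le_of_eq ?_)
    refine Finset.sum_congr rfl fun j _ => ?_
    rw [dist_comm, dist_eq_norm, Nat.cast_succ, ← add_assoc]
  calc (1 + 1 / 4000) * A x n k ≤ (1 + 1 / 4000) * ∑ j ∈ Finset.range N,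
      ‖P n (zz x (n + 1) (k * N + j + 1)) - P n (zz x (n + 1) (k * N + j))‖ :=
        mul_le_mul_of_nonneg_left h1 (by norm_num)
    _ = ∑ j ∈ Finset.range N, (1 + 1 / 4000) *
      ‖P n (zz x (n + 1) (k * N + j + 1)) - P n (zz x (n + 1) (k * N + j))‖ := by
        rw [Finset.mul_sum]
    _ ≤ _ := Finset.sum_le_sum fun j _ => cell_growth (hx (n + 1)) _

theorem sum_mul_range (g : ℕ → ℝ) (M N : ℕ) :
    ∑ i ∈ Finset.range M, ∑ j ∈ Finset.range N, g (i * N + j) = ∑ l ∈ Finset.range (M * N), g l := by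
  induction M with
  | zero => simp
  | succ M ih =>
    rw [Finset.sum_range_succ, ih, Nat.succ_mul, Finset.sum_range_add]

theorem A_grow {x : ℝ} (hx : x ∈ E) (m : ℕ) (k : ℤ) (j : ℕ) : ∃ M : ℕ,
    (M : ℝ) * dl (m + j) = dl m ∧
    (1 + 1 / 4000) ^ j * A x m k ≤ ∑ i ∈ Finset.range M, A x (m + j) (k * M + i) := by
  induction j with
  | zero => exact ⟨1, by simp, by simp⟩
  | succ j ih =>
    obtain ⟨M, hM, hs⟩ := ih
    obtain ⟨N, hN⟩ : ∃ N : ℕ, (N : ℝ) * dl (m + j + 1) = dl (m + j) :=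
      ⟨2 ^ (m + j + 30), by rw [← dl_mul (m + j)]; push_cast; ring⟩
    refine ⟨M * N, ?_, ?_⟩
    · rw [← hM, ← hN, Nat.cast_mul, ← add_assoc]
      ring
    · have h1 : (1 + 1 / 4000) ^ (j + 1) * A x m k = (1 + 1 / 4000) * ((1 + 1 / 4000) ^ j * A x m k) := by
        rw [pow_succ]; ring
      rw [h1]
      refine (mul_le_mul_of_nonneg_left hs (by norm_num)).trans ?_
      rw [Finset.mul_sum]
      have h2 := Finset.sum_le_sum (s := Finset.range M) fun i _ =>
        A_refine hx (m + j) (k * M + i) N hN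
      refine h2.trans (le_of_eq ?_)
      rw [← sum_mul_range]
      refine Finset.sum_congr rfl fun i _ => Finset.sum_congr rfl fun l _ => ?_
      rw [← add_assoc m j 1]
      congr 1
      push_cast
      ring

/-- the polygonal lengths of the image of a cell tend to infinity -/
theorem f_grow {x : ℝ} (hx : x ∈ E) (m : ℕ) (k : ℤ) (j : ℕ) : ∃ M : ℕ,
    (M : ℝ) * dl (m + j) = dl m ∧
    (1 + 1 / 4000) ^ j * A x m k - 2 * dl m ≤ ∑ i ∈ Finset.range M,
      ‖f (zz x (m + j) (k * M + i + 1)) - f (zz x (m + j) (k * M + i))‖ := by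
  obtain ⟨M, hM, hs⟩ := A_grow hx m k j
  refine ⟨M, hM, ?_⟩
  have h1 : ∀ i ∈ Finset.range M, A x (m + j) (k * M + i) - 2 * dl (m + j) ≤
      ‖f (zz x (m + j) (k * M + i + 1)) - f (zz x (m + j) (k * M + i))‖ := by
    intro i _
    unfold A
    have h2 := f_P (m + j) (zz x (m + j) (k * M + i + 1))
    have h3 := f_P (m + j) (zz x (m + j) (k * M + i))
    set p := P (m + j) (zz x (m + j) (k * M + i + 1))
    set q := P (m + j) (zz x (m + j) (k * M + i))
    set p' := f (zz x (m + j) (k * M + i + 1))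
    set q' := f (zz x (m + j) (k * M + i))
    have h4 : ‖p - q‖ ≤ ‖p' - q'‖ + ‖p' - p‖ + ‖q' - q‖ := by
      calc ‖p - q‖ = ‖(p' - q') - (p' - p) + (q' - q)‖ := by congr 1; ring
        _ ≤ ‖(p' - q') - (p' - p)‖ + ‖q' - q‖ := norm_add_le _ _
        _ ≤ _ := by
          have := norm_sub_le (p' - q') (p' - p)
          linarith
    linarith
  have h2 := Finset.sum_le_sum h1
  refine le_trans ?_ h2
  rw [Finset.sum_sub_distrib]
  simp only [Finset.sum_const, Finset.card_range, nsmul_eq_mul]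
  have : (M : ℝ) * (2 * dl (m + j)) = 2 * dl m := by rw [← hM]; ring
  rw [this]
  linarith

end Pool.Agent.H744R3.QCL
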