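import Pool.Agent.H744R3.QCL5

set_option autoImplicit false
open Set Filter Topology

namespace Pool.Agent.H744R3.QCL

/-- successive times at which a continuous function takes increasing values -/
theorem ivt_seq {Y : ℝ → ℝ} {a b : ℝ} (hab : a ≤ b) (hY : ContinuousOn Y (Icc a b)) (y : ℕ → ℝ)
    (hy : Monotone y) (ha : Y a ≤ y 0) (M : ℕ) (hb : y M ≤ Y b) :
    ∃ u : ℕ → ℝ, Monotone u ∧ (∀ i, u i ∈ Icc a b) ∧ ∀ i ≤ M, Y (u i) = y i := by
  induction M with
  | zero =>
    obtain ⟨t, ht, hty⟩ := intermediate_value_Icc hab hY ⟨ha, hb⟩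
    exact ⟨fun _ => t, monotone_const, fun _ => ht, fun i hi => by
      rw [Nat.le_zero.1 hi]; exact hty⟩
  | succ M ih =>
    obtain ⟨u, hu, hum, huy⟩ := ih ((hy (Nat.le_succ M)).trans hb)
    have h1 : Y (u M) ≤ y (M + 1) := by rw [huy M le_rfl]; exact hy (Nat.le_succ M)
    have hsub : Icc (u M) b ⊆ Icc a b := Icc_subset_Icc_left (hum M).1
    obtain ⟨t, ht, hty⟩ := intermediate_value_Icc (hum M).2 (hY.mono hsub) ⟨h1, hb⟩
    refine ⟨fun i => if i ≤ M then u i else t, ?_, ?_, ?_⟩
    · intro i j hij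
      dsimp only
      split_ifs with h2 h3 h3
      · exact hu hij
      · exact (hu h2).trans ht.1
      · omega
      · exact le_rfl
    · intro i
      dsimp only
      split_ifs
      · exact hum i
      · exact hsub ht
    · intro i hi
      dsimp only
      split_ifs with h2
      · exact huy i h2
      · have : i = M + 1 := by omega
        rw [this]; exact hty

theorem var_ge {γ : ℝ → ℂ} {x : ℝ} {Y : ℝ → ℝ} {a b : ℝ} (hab : a ≤ b)
    (hsub : Icc a b ⊆ Icc (0:ℝ) 1) (hY : ContinuousOn Y (Icc a b))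
    (hγ : ∀ t ∈ Icc a b, γ t = f ⟨x, Y t⟩) (y : ℕ → ℝ) (hy : Monotone y) (M : ℕ)
    (h : (Y a ≤ y 0 ∧ y M ≤ Y b) ∨ (Y b ≤ y 0 ∧ y M ≤ Y a)) :
    ENNReal.ofReal (∑ i ∈ Finset.range M, ‖f ⟨x, y (i + 1)⟩ - f ⟨x, y i⟩‖) ≤
      eVariationOn γ (Icc 0 1) := by
  rw [ENNReal.ofReal_sum_of_nonneg (fun i _ => norm_nonneg _)]
  rcases h with ⟨h1, h2⟩ | ⟨h1, h2⟩
  · obtain ⟨u, hu, hum, huy⟩ := ivt_seq hab hY y hy h1 M h2
    have h3 := eVariationOn.sum_le (f := γ) (s := Icc 0 1) (n := M) hu (fun i => hsub (hum i))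
    refine le_trans (le_of_eq ?_) h3
    refine Finset.sum_congr rfl fun i hi => ?_
    have hi' := Finset.mem_range.1 hi
    rw [hγ _ (hum _), hγ _ (hum _), huy i (by omega), huy (i + 1) (by omega), edist_dist,
      dist_eq_norm]
  · have hmono : Monotone (fun i : ℕ => if i ≤ M then - y (M - i) else - y 0) := by
      intro i j hij
      dsimp only
      split_ifs with h3 h4 h4
      · exact neg_le_neg (hy (by omega))
      · exact neg_le_neg (hy (by omega))
      · omega
      · exact le_rfl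
    obtain ⟨u, hu, hum, huy⟩ := ivt_seq (Y := fun t => - Y t) hab hY.neg _ hmono
      (by simp; exact h2) M (by simp; exact h1)
    have hval : ∀ i ≤ M, Y (u i) = y (M - i) := by
      intro i hi
      have := huy i hi
      rw [if_pos hi] at this
      linarith
    have h3 := eVariationOn.sum_le (f := γ) (s := Icc 0 1) (n := M) hu (fun i => hsub (hum i))
    refine le_trans (le_of_eq ?_) h3
    rw [← Finset.sum_range_reflect]
    refine Finset.sum_congr rfl fun i hi => ?_
    have hi' := Finset.mem_range.1 hi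
    rw [hγ _ (hum _), hγ _ (hum _), hval i (by omega), hval (i + 1) (by omega), edist_comm,
      edist_dist, dist_eq_norm]
    have e1 : M - 1 - i + 1 = M - i := by omega
    have e2 : M - 1 - i = M - (i + 1) := by omega
    rw [e1, e2]

theorem main : ∃ f : ℂ ≃ₜ ℂ,
      (∃ H : ℝ, ∀ x : ℂ, ∃ δ > (0 : ℝ), ∀ y z : ℂ,
          dist y x = dist z x → dist y x < δ →
            dist (f y) (f x) ≤ H * dist (f z) (f x)) ∧
      ∃ E : Set ℝ, ¬ E.Countable ∧
        ∀ γ : ℝ → ℂ, ContinuousOn γ (Set.Icc 0 1) →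
          BoundedVariationOn γ (Set.Icc 0 1) →
          (∀ t ∈ Set.Icc (0 : ℝ) 1, γ t ∈ f '' {z : ℂ | z.re ∈ E}) →
          ∀ s ∈ Set.Icc (0 : ℝ) 1, ∀ t ∈ Set.Icc (0 : ℝ) 1, γ s = γ t := by
  refine ⟨fh, ⟨4, f_qc⟩, E, E_uncountable, ?_⟩
  intro γ hγc hγb hγE
  -- the lifted curve
  set w : ℝ → ℂ := fun t => fh.symm (γ t) with hw
  have hwc : ContinuousOn w (Icc 0 1) := fh.symm.continuous.comp_continuousOn hγc
  have hfw : ∀ t, f (w t) = γ t := fun t => fh.apply_symm_apply (γ t)
  have hwE : ∀ t ∈ Icc (0:ℝ) 1, (w t).re ∈ E := by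
    intro t ht
    obtain ⟨z, hz, hzt⟩ := hγE t ht
    have : w t = z := by
      rw [hw]; dsimp only; rw [← hzt]; exact fh.symm_apply_apply z
    rw [this]; exact hz
  -- the real part is constant
  have hre : ∀ s ∈ Icc (0:ℝ) 1, ∀ t ∈ Icc (0:ℝ) 1, (w s).re = (w t).re := by
    have hpre : IsPreconnected ((fun t => (w t).re) '' Icc (0:ℝ) 1) :=
      isPreconnected_Icc.image _ (Complex.continuous_re.comp_continuousOn hwc)
    have hord := hpre.ordConnected
    have hlt : ∀ s ∈ Icc (0:ℝ) 1, ∀ t ∈ Icc (0:ℝ) 1, ¬ (w s).re < (w t).re := by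
      intro s hs t ht hlt
      obtain ⟨r, hr, hrE⟩ := E_gap (hwE s hs) (hwE t ht) hlt
      have h1 : r ∈ (fun t => (w t).re) '' Icc (0:ℝ) 1 :=
        hord.out ⟨s, hs, rfl⟩ ⟨t, ht, rfl⟩ ⟨hr.1.le, hr.2.le⟩
      obtain ⟨q, hq, hqr⟩ := h1
      exact hrE (hqr ▸ hwE q hq)
    intro s hs t ht
    rcases lt_trichotomy (w s).re (w t).re with h | h | h
    · exact absurd h (hlt s hs t ht)
    · exact h
    · exact absurd h (hlt t ht s hs)
  -- it suffices to treat ordered times
  have key : ∀ s ∈ Icc (0:ℝ) 1, ∀ t ∈ Icc (0:ℝ) 1, s ≤ t → γ s = γ t := by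
    intro s hs t ht hst
    by_contra hne
    set x := (w s).re with hx
    have hxE : x ∈ E := hwE s hs
    set Y : ℝ → ℝ := fun r => (w r).im with hY
    have hsub : Icc s t ⊆ Icc (0:ℝ) 1 := Icc_subset_Icc hs.1 ht.2
    have hYc : ContinuousOn Y (Icc s t) :=
      (Complex.continuous_im.comp_continuousOn hwc).mono hsub
    have hγY : ∀ r ∈ Icc s t, γ r = f ⟨x, Y r⟩ := by
      intro r hr
      rw [← hfw r]
      congr 1
      apply Complex.ext
      · exact hre r (hsub hr) s hs
      · rfl
    have hYne : Y s ≠ Y t := by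
      intro h
      apply hne
      rw [hγY s ⟨le_rfl, hst⟩, hγY t ⟨hst, le_rfl⟩, h]
    -- choose a cell between the two heights
    set lo := min (Y s) (Y t) with hlo
    set hi := max (Y s) (Y t) with hhi
    have hlohi : lo < hi := by
      rcases lt_or_gt_of_ne hYne with h | h
      · rw [hlo, hhi, min_eq_left h.le, max_eq_right h.le]; exact h
      · rw [hlo, hhi, min_eq_right h.le, max_eq_left h.le]; exact h
    have hπ := Real.pi_pos
    obtain ⟨m, hm⟩ : ∃ m, 2 * (Real.pi * dl m) < hi - lo := by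
      have h1 : Tendsto (fun m => 2 * (Real.pi * dl m)) atTop (𝓝 0) := by
        simpa using (dl_tendsto.const_mul Real.pi).const_mul 2
      exact ((tendsto_order.1 h1).2 _ (by linarith : 0 < hi - lo)).exists
    set h := Real.pi * dl m with hh
    have hh0 : 0 < h := mul_pos hπ (dl_pos m)
    set k : ℤ := ⌈lo / h⌉ with hk
    have hk1 : lo ≤ k * h := by
      have := Int.le_ceil (lo / h)
      rwa [div_le_iff₀ hh0] at this
    have hk2 : (k + 1) * h ≤ hi := by
      have := Int.ceil_lt_add_one (lo / h)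
      have h2 : (k : ℝ) * h < lo + h := by
        have h3 : (k : ℝ) * h < (lo / h + 1) * h := mul_lt_mul_of_pos_right this hh0
        have h4 : (lo / h + 1) * h = lo + h := by field_simp
        linarith
      have : ((k : ℝ) + 1) * h = k * h + h := by ring
      rw [this]
      linarith
    have hA : 0 < A x m k := by
      unfold A
      rw [norm_pos_iff, sub_ne_zero]
      intro h1
      have h2 := P_inj m h1
      have h3 := norm_zz_succ x m k
      rw [h2, sub_self, norm_zero] at h3
      exact absurd h3 (ne_of_lt hh0)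
    set V := (eVariationOn γ (Icc 0 1)).toReal with hV
    have hbound : ∀ j : ℕ, (1 + 1 / 4000) ^ j * A x m k - 2 * dl m ≤ V := by
      intro j
      obtain ⟨M, hM, hs⟩ := f_grow hxE m k j
      refine hs.trans ?_
      have hd := dl_pos (m + j)
      have h1 := var_ge (γ := γ) (x := x) (Y := Y) hst hsub hYc hγY
        (fun i : ℕ => ((k * M + i : ℤ) : ℝ) * (Real.pi * dl (m + j)))
        (by
          intro i i' hii
          dsimp only
          apply mul_le_mul_of_nonneg_right _ (by positivity)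
          push_cast
          have : (i : ℝ) ≤ i' := by exact_mod_cast hii
          linarith) M
        (by
          have e1 : (((k * M + ((0:ℕ):ℤ) : ℤ) : ℝ)) * (Real.pi * dl (m + j)) = k * h := by
            rw [hh, ← hM]; push_cast; ring
          have e2 : (((k * M + (M:ℤ) : ℤ) : ℝ)) * (Real.pi * dl (m + j)) = (k + 1) * h := by
            rw [hh, ← hM]; push_cast; ring
          rw [e1, e2]
          rcases lt_or_gt_of_ne hYne with h5 | h5
          · left
            rw [hlo, min_eq_left h5.le] at hk1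
            rw [hhi, max_eq_right h5.le] at hk2
            exact ⟨hk1, hk2⟩
          · right
            rw [hlo, min_eq_right h5.le] at hk1
            rw [hhi, max_eq_left h5.le] at hk2
            exact ⟨hk1, hk2⟩)
      have h2 := (ENNReal.ofReal_le_iff_le_toReal hγb).1 h1
      refine le_trans (le_of_eq ?_) h2
      refine Finset.sum_congr rfl fun i _ => ?_
      simp only [zz]
      push_cast
      ring_nf
    have hlim : Tendsto (fun j : ℕ => ((1:ℝ) + 1 / 4000) ^ j) atTop atTop :=
      tendsto_pow_atTop_atTop_of_one_lt (by norm_num)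
    obtain ⟨j, hj⟩ := (hlim.eventually_gt_atTop ((V + 2 * dl m) / A x m k)).exists
    have h1 := hbound j
    rw [div_lt_iff₀ hA] at hj
    linarith
  intro s hs t ht
  rcases le_total s t with h | h
  · exact key s hs t ht h
  · exact (key t ht s hs h).symm

end Pool.Agent.H744R3.QCL
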