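import Pool.Agent.H369R3.UT.Defs

/-! Task T of project H369-UT (helper744). -/

set_option autoImplicit false

namespace Pool.Agent.H744R3.UT

open Pool.Agent.H369R3.UT

/-- the inverse of the Riesz map as a real continuous linear map -/
noncomputable def riesz (n : ℕ) : StrongDual ℝ (Cn n) →L[ℝ] Cn n :=
  LinearMap.mkContinuous
    { toFun := fun φ => (InnerProductSpace.toDual ℝ (Cn n)).symm φ
      map_add' := fun φ ψ => map_add _ φ ψ
      map_smul' := fun c φ => by
        rw [LinearIsometryEquiv.map_smulₛₗ]; rfl } 1 (fun φ => by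
    rw [one_mul]
    exact (LinearIsometryEquiv.norm_map _ φ).le)

theorem riesz_apply (n : ℕ) (φ : StrongDual ℝ (Cn n)) :
    riesz n φ = (InnerProductSpace.toDual ℝ (Cn n)).symm φ := rfl

theorem taskT : TaskT := by
  intro n f M x hf
  have hf1 : ContDiff ℝ 2 (fderiv ℝ f) := hf.fderiv_right (by norm_num)
  have hB : HasFDerivAt (fderiv ℝ f) (fderiv ℝ (fderiv ℝ f) x) x :=
    ((hf1.differentiable (by norm_num)) x).hasFDerivAt
  set B := fderiv ℝ (fderiv ℝ f) x with hBdef
  have hsymm : ∀ v w, B v w = B w v := by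
    have h := (hf.contDiffAt (x := x)).isSymmSndFDerivAt (by
      rw [minSmoothness_of_isRCLikeNormedField]; norm_num)
    exact fun v w => h v w
  have hA : ∀ v w : Cn n, inner ℝ ((ContinuousLinearMap.id ℝ (Cn n) -
      M⁻¹ • (riesz n).comp B) v) w = inner ℝ v w - M⁻¹ * B v w := by
    intro v w
    rw [ContinuousLinearMap.sub_apply, ContinuousLinearMap.smul_apply,
      ContinuousLinearMap.comp_apply, ContinuousLinearMap.id_apply, inner_sub_left,
      real_inner_smul_left, riesz_apply, InnerProductSpace.toDual_symm_apply]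
  refine ⟨ContinuousLinearMap.id ℝ (Cn n) - M⁻¹ • (riesz n).comp B, ?_, hA, ?_⟩
  · have h1 : HasFDerivAt (fun z => riesz n (fderiv ℝ f z)) ((riesz n).comp B) x :=
      (riesz n).hasFDerivAt.comp x hB
    exact (hasFDerivAt_id x).sub (h1.const_smul M⁻¹)
  · intro v w
    have h2 := hA w v
    rw [real_inner_comm] at h2
    rw [hA, h2, hsymm w v, real_inner_comm]

end Pool.Agent.H744R3.UT
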